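import Pool.Agent.Lib.MP_f99268_lc_W.AlphaL

/-!
# Finite sets of far rows do not kill, finite version
-/

namespace Pool.Agent.MP_f99268_lc

open Equiv Classical

variable {D : Type} {G : Subgroup (Perm D)} {s : ℕ} {e : PT G → PT G} {J₀ J : D → D → PT G}

/-- Pigeonhole principle for properties that are inherited by smaller finite sets. -/
private theorem AlphaF_pigeon {α : Type*} (C : Set α) (hC : C.Finite) (P : Finset D → α → Prop)
    (hP : ∀ B B' c, B' ⊆ B → P B c → P B' c) (h : ∀ B, ∃ c ∈ C, P B c) :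
    ∃ c ∈ C, ∀ B, P B c := by
  by_contra hcon
  push Not at hcon
  choose! B hB using hcon
  obtain ⟨c, hc, h1⟩ := h (hC.toFinset.biUnion B)
  exact hB c hc (hP _ _ c (Finset.subset_biUnion_of_mem B (hC.mem_toFinset.2 hc)) h1)

/-- (alpha), finite version. (Suppose not: for every `B = A n ∪ A`, `A n` an exhaustion, there are
`h n`, `b n`. By `Olig.fin ∅ k` we may move `b n` by an element of `G` (and `h n` with it, by
`EX.unk_map`) into a finite set of tuples; so one `b` occurs for infinitely many `n`, and also one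
function `v` (`i`, orbit representative `x₀`) `↦ tp (b i) (h n x₀)`. `exists_pos` (with `B` the set
of the `b i`) gives `u` with `Emb G u` and `tp (b i) (u x) = v i x` for all `x`; `u` is canonical
over `b` by `BX.move`. For one large `n` in the set the tuples `h n A` and `u A` have the same
labels over `b`, so `EX.alpha` gives a contradiction.) -/
theorem EX.alpha_fin [Countable D] (hE : EX G s e J₀ J) (k : ℕ) (A : Finset D) :
    ∃ B : Finset D, ∀ h ∈ G, ∀ b : Fin k → D,
      (∀ i, ∀ x ∈ B, ∀ g ∈ G, g x ∈ B → tp G (b i) (h (g x)) = tp G (b i) (h x)) →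
      Unk G s J e (Finset.univ.image b) (A.image h) := by
  by_contra hcon
  push Not at hcon
  have hfin : Finite (PT G) := finite_PT hE.olig
  obtain ⟨T, hT⟩ := hE.olig.fin ∅ k
  obtain ⟨⟨b, v⟩, _, hbv⟩ := AlphaF_pigeon (D := D)
    ((T : Set (Fin k → D)) ×ˢ (Set.univ : Set (Fin k → PT G → PT G)))
    (T.finite_toSet.prod Set.finite_univ)
    (fun B c => ∃ h ∈ G, (∀ x ∈ B, ∀ i, tp G (c.1 i) (h x) = c.2 i (tp G x x)) ∧
      ¬ Unk G s J e (Finset.univ.image c.1) (A.image h))
    (fun B B' c hB ⟨h, hh, h1, h2⟩ => ⟨h, hh, fun x hx => h1 x (hB hx), h2⟩)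
    (by
      intro B
      obtain ⟨h, hh, b, h1, h2⟩ := hcon B
      obtain ⟨g, hg, hgT⟩ := hT b
      have hg' := (mem_st.1 hg).1
      refine ⟨(fun i => g (b i), fun i t => if ht : ∃ x ∈ B, tp G x x = t then
        tp G (b i) (h ht.choose) else t), ⟨hgT, Set.mem_univ _⟩, g * h, G.mul_mem hg' hh,
        fun x hx i => ?_, ?_⟩
      · have ht : ∃ x' ∈ B, tp G x' x' = tp G x x := ⟨x, hx, rfl⟩
        simp only
        rw [dif_pos ht, Perm.mul_apply, tp_map hg']
        obtain ⟨g', hg'', h3, _⟩ := tp_eq.1 ht.choose_spec.2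
        rw [← h1 i ht.choose ht.choose_spec.1 g' hg'' (by rw [h3]; exact hx), h3]
      · intro hU
        apply h2
        rw [← hE.unk_map hg']
        have e1 : Finset.univ.image (fun i => g (b i)) = (Finset.univ.image b).image g := by
          rw [Finset.image_image]
          rfl
        have e2 : A.image (g * h : Perm D) = (A.image h).image g := by
          rw [Finset.image_image]
          rfl
        rw [← e1, ← e2]
        exact hU)
  simp only at hbv
  obtain ⟨u, hu, hR⟩ := exists_pos hE.olig (Finset.univ.image b)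
    (fun Y => ∀ y ∈ Y, ∀ i, tp G (b i) y = v i (tp G y y))
    (fun Y Y' hY h y hy => h y (hY hy))
    (by
      rintro g hg Y h _ ⟨y, hy, rfl⟩ i
      have hg' := mem_st.1 hg
      rw [tp_map hg'.1 y y, ← h y hy i, ← tp_map hg'.1 (b i) y,
        hg'.2 (b i) (Finset.mem_image_of_mem _ (Finset.mem_univ i))])
    (by
      intro A'
      obtain ⟨h, hh, h1, _⟩ := hbv A'
      refine ⟨h, hh, ?_⟩
      rintro _ ⟨x, hx, rfl⟩ i
      rw [h1 x hx i, tp_map hh])
  have htu : ∀ x y, tp G (u x) (u y) = tp G x y := by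
    intro x y
    obtain ⟨w, hw, h1⟩ := hu {x, y}
    rw [h1 x (by simp), h1 y (by simp), tp_map hw]
  have hbu : ∀ x i, tp G (b i) (u x) = v i (tp G x x) := by
    intro x i
    have h1 := hR {x} (u x) ⟨x, by simp, rfl⟩ i
    rw [h1, htu]
  have huc : CanU G ∅ (Finset.univ.image b) u := by
    rintro m x y ⟨g, hg, hgx⟩
    have hg' := (mem_st.1 hg).1
    obtain ⟨κ, hκ, h1⟩ := hE.toBX.move (Finset.univ.image b) (fun l => u (x l))
      (fun l => u (y l)) (fun l l' => by rw [htu, htu, ← hgx l, ← hgx l', tp_map hg'])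
      (by
        intro l a ha
        obtain ⟨i, _, rfl⟩ := Finset.mem_image.1 ha
        refine tp_swap ?_
        rw [hbu, hbu, ← hgx l, tp_map hg'])
    exact ⟨κ, hκ, h1⟩
  obtain ⟨h, hh, h1, h2⟩ := hbv A
  apply h2
  have hA := hE.alpha (Finset.univ.image b) u hu huc A
  obtain ⟨κ, hκ, h3⟩ := hE.toBX.move (Finset.univ.image b) (fun a : {a // a ∈ A} => u a.1)
    (fun a => h a.1) (fun l l' => by rw [htu, tp_map hh])
    (by
      intro l a ha
      obtain ⟨i, _, rfl⟩ := Finset.mem_image.1 ha
      refine tp_swap ?_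
      rw [hbu, h1 l.1 l.2 i])
  have hκ' := mem_st.1 hκ
  have e1 : (Finset.univ.image b).image κ = Finset.univ.image b := by
    ext a
    rw [Finset.mem_image]
    constructor
    · rintro ⟨c, hc, rfl⟩
      rwa [hκ'.2 c hc]
    · exact fun ha => ⟨a, ha, hκ'.2 a ha⟩
  have e2 : (A.image u).image κ = A.image h := by
    rw [Finset.image_image]
    refine Finset.image_congr fun a ha => ?_
    exact h3 ⟨a, ha⟩
  have h4 := (hE.unk_map hκ'.1).2 hA
  rwa [e1, e2] at h4

end Pool.Agent.MP_f99268_lc
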