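import Pool.Agent.Lib.MP_f99268_lc_W.ReachA

/-!
# The far position
-/

namespace Pool.Agent.MP_f99268_lc

open Equiv Classical

variable {D : Type} {G : Subgroup (Perm D)} {s : ℕ}

private def farL_q (G : Subgroup (Perm D)) : Setoid D where
  r x y := ∃ g ∈ G, g x = y
  iseqv :=
    { refl := fun _ => ⟨1, G.one_mem, rfl⟩
      symm := by
        rintro x y ⟨g, hg, h⟩
        exact ⟨g⁻¹, G.inv_mem hg, by rw [inv_apply_iff, h]⟩
      trans := by
        rintro x y z ⟨g, hg, h⟩ ⟨g', hg', h'⟩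
        exact ⟨g' * g, G.mul_mem hg' hg, by rw [Perm.mul_apply, h, h']⟩ }

private theorem farL_fin (hO : Olig G) : Finite (Quotient (farL_q G)) := by
  obtain ⟨T, hT⟩ := hO ∅
  refine Finite.of_surjective (α := {t // t ∈ T}) (fun t => Quotient.mk (farL_q G) t.1) ?_
  intro q
  obtain ⟨x, rfl⟩ := Quotient.exists_rep q
  obtain ⟨g, hg, h⟩ := hT x
  rw [st_empty] at hg
  refine ⟨⟨g x, h⟩, Quotient.sound (s := farL_q G) ?_⟩
  exact ⟨g⁻¹, G.inv_mem hg, by rw [inv_apply_iff]⟩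

/-- Two copies of a finite set in a canonical position. -/
private theorem farL_two (hX : BX G s) (A : Finset D) : ∃ β₀ ∈ G, ∃ β₁ ∈ G,
    ∀ a ∈ A, ∀ a' ∈ A, ∀ b ∈ A, ∀ b' ∈ A, (∃ g ∈ G, g a = b) → (∃ g ∈ G, g a' = b') →
      tp G (β₀ a) (β₁ a') = tp G (β₀ b) (β₁ b') := by
  obtain ⟨β, hβ, hcan⟩ := canon_finite hX.ramsey hX.olig ∅ ∅ Bool 2
    (fun i φ => if i = true then φ 1 else φ 0) A
  refine ⟨β 0, st_le (hβ 0), β 1, st_le (hβ 1), ?_⟩
  rintro a ha a' ha' b hb b' hb' ⟨g, hg, h1⟩ ⟨g', hg', h2⟩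
  obtain ⟨k, hk, h3⟩ := hcan 1 ![fun _ => a, fun _ => a'] ![fun _ => b, fun _ => b'] (by
    intro j l
    fin_cases j
    · exact ha
    · exact ha') (by
    intro j l
    fin_cases j
    · exact hb
    · exact hb') (by
    intro j
    fin_cases j
    · exact ⟨g, by rwa [st_empty], fun _ => h1⟩
    · exact ⟨g', by rwa [st_empty], fun _ => h2⟩)
  have h4 := h3 (false, 0)
  have h5 := h3 (true, 0)
  simp at h4 h5
  exact tp_eq.2 ⟨k, st_le hk, h4, h5⟩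

/-- Two copies in a canonical position (as `exists_can`, from `canon_finite` with `p = 2`). -/
theorem BX.exists_J (hX : BX G s) : ∃ J : D → D → PT G,
    (∀ g ∈ G, ∀ h ∈ G, ∀ x b, J (g x) (h b) = J x b) ∧ LegM G J := by
  have hfin : Finite (Quotient (farL_q G)) := farL_fin hX.olig
  have hPT : Finite (PT G) := finite_PT hX.olig
  let Q := Quotient (farL_q G)
  let mk : D → Q := Quotient.mk (farL_q G)
  have hmk : ∀ g ∈ G, ∀ x, mk (g x) = mk x := by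
    intro g hg x
    refine Quotient.sound (s := farL_q G) ?_
    exact ⟨g⁻¹, G.inv_mem hg, by rw [inv_apply_iff]⟩
  suffices hmain : ∃ j : Q → Q → PT G, ∀ A : Finset D, ∃ g ∈ G, ∀ x ∈ A, ∀ b ∈ A,
      tp G (g x) b = j (mk x) (mk b) by
    obtain ⟨j, hj⟩ := hmain
    refine ⟨fun x b => j (mk x) (mk b), ?_, ?_⟩
    · intro g hg h hh x b
      simp only [hmk g hg, hmk h hh]
    · intro X B
      obtain ⟨g, hg, h⟩ := hj (X ∪ B)
      exact ⟨g, hg, fun x hx b hb => h x (Finset.mem_union_left _ hx) b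
        (Finset.mem_union_right _ hb)⟩
  by_contra hcon
  push Not at hcon
  have : Fintype (Q → Q → PT G) := Fintype.ofFinite _
  choose A hA using hcon
  let A' : Finset D := Finset.univ.biUnion A
  obtain ⟨β₀, h0, β₁, h1, h⟩ := farL_two hX A'
  let j : Q → Q → PT G := fun p q =>
    if h : (∃ x ∈ A', mk x = p) ∧ ∃ b ∈ A', mk b = q then
      tp G (β₀ h.1.choose) (β₁ h.2.choose) else tp G (β₀ p.out) (β₁ q.out)
  obtain ⟨x, hx, b, hb, hne⟩ := hA j (β₁⁻¹ * β₀) (G.mul_mem (G.inv_mem h1) h0)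
  apply hne
  have hxA : x ∈ A' := Finset.mem_biUnion.2 ⟨j, Finset.mem_univ _, hx⟩
  have hbA : b ∈ A' := Finset.mem_biUnion.2 ⟨j, Finset.mem_univ _, hb⟩
  have hc : (∃ y ∈ A', mk y = mk x) ∧ ∃ c ∈ A', mk c = mk b := ⟨⟨x, hxA, rfl⟩, ⟨b, hbA, rfl⟩⟩
  have e1 : j (mk x) (mk b) = tp G (β₀ hc.1.choose) (β₁ hc.2.choose) := dif_pos hc
  have h2 := hc.1.choose_spec
  have h3 := hc.2.choose_spec
  have h4 : ∃ g ∈ G, g x = hc.1.choose := Quotient.exact (s := farL_q G) h2.2.symm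
  have h5 : ∃ g ∈ G, g b = hc.2.choose := Quotient.exact (s := farL_q G) h3.2.symm
  rw [e1, ← h x hxA b hbA _ h2.1 _ h3.1 h4 h5]
  refine tp_eq.2 ⟨β₁, h1, ?_, rfl⟩
  simp

/-- A position in which the labels over `c` only depend on the orbit is canonical. -/
private theorem farL_can (hX : BX G s) {c : Finset D} {u : D → D} (hu : Emb G u)
    (h : ∀ x y, (∃ g ∈ G, g x = y) → ∀ a ∈ c, tp G a (u x) = tp G a (u y)) : CanU G ∅ c u := by
  intro m x y hxy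
  have h1 : Orb G ∅ (fun l => u (x l)) (fun l => u (y l)) :=
    ((hu.orb x).symm.trans hxy).trans (hu.orb y)
  obtain ⟨g, hg, h2⟩ := h1
  obtain ⟨g', hg', h3⟩ := hxy
  obtain ⟨k, hk, h4⟩ := hX.move c (fun l => u (x l)) (fun l => u (y l)) (fun i j => by
    have h5 : g (u (x i)) = u (y i) := h2 i
    have h6 : g (u (x j)) = u (y j) := h2 j
    rw [← h5, ← h6]
    exact (tp_map (st_le hg) _ _).symm) (fun i a ha =>
      tp_swap (h (x i) (y i) ⟨g', st_le hg', h3 i⟩ a ha))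
  exact ⟨k, hk, h4⟩

/-- The region far after `c`. -/
theorem BX.exists_after [Countable D] (hX : BX G s) {J : D → D → PT G}
    (hinv : ∀ g ∈ G, ∀ h ∈ G, ∀ x b, J (g x) (h b) = J x b) (hJ : LegM G J) (c : Finset D) :
    ∃ u : D → D, Emb G u ∧ CanU G ∅ c u ∧ ∀ a ∈ c, ∀ x, tp G a (u x) = J a x := by
  have hinv1 : ∀ g ∈ G, ∀ a x, J a (g x) = J a x := fun g hg a x =>
    hinv 1 G.one_mem g hg a x
  obtain ⟨u, hu1, hu2⟩ := exists_pos hX.olig c (fun Y => ∀ a ∈ c, ∀ y ∈ Y, tp G a y = J a y)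
    (fun Y Y' hY h a ha y hy => h a ha y (hY hy))
    (by
      rintro g hg Y h a ha _ ⟨y, hy, rfl⟩
      have hg1 := mem_st.1 hg
      have h1 := tp_map hg1.1 a y
      rw [hg1.2 a ha] at h1
      rw [h1, h a ha y hy, hinv1 g hg1.1])
    (by
      intro A
      obtain ⟨g, hg, h⟩ := hJ c A
      refine ⟨g⁻¹, G.inv_mem hg, ?_⟩
      rintro a ha _ ⟨b, hb, rfl⟩
      rw [hinv1 _ (G.inv_mem hg), ← h a ha b (Finset.mem_coe.1 hb)]
      refine tp_eq.2 ⟨g, hg, rfl, ?_⟩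
      simp)
  have hu3 : ∀ a ∈ c, ∀ x, tp G a (u x) = J a x := by
    intro a ha x
    have h1 := hu2 {x} a ha (u x) ⟨x, by simp, rfl⟩
    obtain ⟨g, hg, h2⟩ := hu1 {x}
    rw [h1, h2 x (Finset.mem_singleton_self x), hinv1 g hg]
  exact ⟨u, hu1, farL_can hX hu1 (fun x y hxy a ha => by
    obtain ⟨g, hg, rfl⟩ := hxy
    rw [hu3 a ha, hu3 a ha, hinv1 g hg]), hu3⟩

/-- The region far before `c`. -/
theorem BX.exists_before [Countable D] (hX : BX G s) {J : D → D → PT G}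
    (hinv : ∀ g ∈ G, ∀ h ∈ G, ∀ x b, J (g x) (h b) = J x b) (hJ : LegM G J) (c : Finset D) :
    ∃ u : D → D, Emb G u ∧ CanU G ∅ c u ∧ ∀ a ∈ c, ∀ x, tp G (u x) a = J x a := by
  have hinv1 : ∀ g ∈ G, ∀ a x, J (g x) a = J x a := fun g hg a x =>
    hinv g hg 1 G.one_mem x a
  obtain ⟨u, hu1, hu2⟩ := exists_pos hX.olig c (fun Y => ∀ a ∈ c, ∀ y ∈ Y, tp G y a = J y a)
    (fun Y Y' hY h a ha y hy => h a ha y (hY hy))
    (by
      rintro g hg Y h a ha _ ⟨y, hy, rfl⟩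
      have hg1 := mem_st.1 hg
      have h1 := tp_map hg1.1 y a
      rw [hg1.2 a ha] at h1
      rw [h1, h a ha y hy, hinv1 g hg1.1])
    (by
      intro A
      obtain ⟨g, hg, h⟩ := hJ A c
      refine ⟨g, hg, ?_⟩
      rintro a ha _ ⟨b, hb, rfl⟩
      rw [hinv1 _ hg, h b (Finset.mem_coe.1 hb) a ha])
  have hu3 : ∀ a ∈ c, ∀ x, tp G (u x) a = J x a := by
    intro a ha x
    have h1 := hu2 {x} a ha (u x) ⟨x, by simp, rfl⟩
    obtain ⟨g, hg, h2⟩ := hu1 {x}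
    rw [h1, h2 x (Finset.mem_singleton_self x), hinv1 g hg]
  exact ⟨u, hu1, farL_can hX hu1 (fun x y hxy a ha => by
    obtain ⟨g, hg, rfl⟩ := hxy
    refine tp_swap ?_
    rw [hu3 a ha, hu3 a ha, hinv1 g hg]), hu3⟩

end Pool.Agent.MP_f99268_lc
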