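import Pool.Agent.Lib.MP_f99268_lc_W.DichL
import Pool.Agent.Lib.MP_f99268_lc_W.FarL

/-!
# Finite sets of far rows do not kill
-/

namespace Pool.Agent.MP_f99268_lc

open Equiv Classical

variable {D : Type} {G : Subgroup (Perm D)} {s : ℕ} {e : PT G → PT G} {J₀ J : D → D → PT G}

/-- The region far after `c` is not killed by `c`. (Let `x` be a tuple in `Y` and `π` the pattern of
`x'`, `b'` in `e` with `tp x i x j = tp x' i x' j`; move `x'` to `x`, so `x' = x`. Let `w ∈ G` agree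
with `u` on `x` and `b'`; `u x` and `x` have the same labels over `c`, so `k ∈ st G c` with
`k (w x) = x`; put `b₁ = k w b'`: `tp a (b₁ j) = J₀ a (b' j)`, `tp (x i) (b₁ j) = tp (x i) (b' j)`.
Now realise `e` over the columns `b₁` (`hE.reach.1`, rows `c ∪ x`) and move the rows back.) -/
theorem EX.unk_after [Countable D] (hE : EX G s e J₀ J) (c : Finset D) (u : D → D)
    (hu : Emb G u) (huc : CanU G ∅ c u) (h : ∀ a ∈ c, ∀ x, tp G a (u x) = J₀ a x)
    (Y : Finset D) (hY : ∀ y ∈ Y, InR G c u y) : Unk G s J e c Y := by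
  intro x hxY π hπ hx
  obtain ⟨x', b', h1, h2, h3⟩ := hπ
  obtain ⟨g, hg, hgx⟩ := hE.bin (Fin s) x' x (fun i j => by rw [h1, hx])
  -- the columns over the rows `x`
  obtain ⟨b₀, hb₀, hxb₀⟩ : ∃ b₀ : Fin s → D, (∀ i j, tp G (b₀ i) (b₀ j) = π.2.1 i j) ∧
      ∀ i j, e (tp G (x i) (b₀ j)) = π.2.2 i j := by
    refine ⟨fun j => g (b' j), fun i j => ?_, fun i j => ?_⟩
    · rw [tp_map hg, h2]
    · rw [← hgx i, tp_map hg, h3]
  obtain ⟨w, hw, hwu⟩ := hu (Finset.univ.image x ∪ Finset.univ.image b₀)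
  have hwx : ∀ i, u (x i) = w (x i) := fun i =>
    hwu _ (Finset.mem_union_left _ (Finset.mem_image_of_mem _ (Finset.mem_univ i)))
  have hwb : ∀ i, u (b₀ i) = w (b₀ i) := fun i =>
    hwu _ (Finset.mem_union_right _ (Finset.mem_image_of_mem _ (Finset.mem_univ i)))
  obtain ⟨k, hk, hkx⟩ := hE.toBX.move c (fun i => u (x i)) x
    (fun i j => by rw [hwx, hwx, tp_map hw])
    (fun i a ha => tp_swap (hY _ (hxY i) a ha).symm)
  have hk' := mem_st.1 hk
  have hkw : k * w ∈ G := G.mul_mem hk'.1 hw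
  -- the columns `b₁`
  obtain ⟨b₁, hb₁⟩ : ∃ b₁ : Fin s → D, ∀ j, b₁ j = (k * w) (b₀ j) := ⟨_, fun _ => rfl⟩
  have hxw : ∀ i, x i = (k * w) (x i) := fun i => by
    rw [Perm.mul_apply, ← hwx, hkx]
  have hab : ∀ a ∈ c, ∀ j, tp G a (b₁ j) = J₀ a (b₁ j) := by
    intro a ha j
    have e1 : b₁ j = k (u (b₀ j)) := by rw [hb₁, Perm.mul_apply, hwb]
    have e2 : tp G a (b₁ j) = tp G (k a) (k (u (b₀ j))) := by rw [hk'.2 a ha, e1]
    rw [e2, tp_map hk'.1, h a ha, hb₁]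
    have e3 := hE.inv₀ 1 G.one_mem (k * w) hkw a (b₀ j)
    rw [Perm.one_apply] at e3
    exact e3.symm
  have hxb : ∀ i j, tp G (x i) (b₁ j) = tp G (x i) (b₀ j) := by
    intro i j
    have e1 : tp G (x i) (b₁ j) = tp G ((k * w) (x i)) ((k * w) (b₀ j)) := by
      rw [← hxw i, ← hb₁ j]
    rw [e1, tp_map hkw]
  obtain ⟨γ, hγ, hγe⟩ := hE.reach.1 (c ∪ Finset.univ.image x) (Finset.univ.image b₁)
  have hmem : ∀ j, b₁ j ∈ Finset.univ.image b₁ := fun j =>
    Finset.mem_image_of_mem _ (Finset.mem_univ j)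
  have hback : ∀ (y : D) (j : Fin s), tp G y (γ⁻¹ (b₁ j)) = tp G (γ y) (b₁ j) := by
    intro y j
    rw [← tp_map hγ y]
    congr 1
    simp
  refine ⟨fun j => γ⁻¹ (b₁ j), fun i j => ?_, fun a ha j => ?_, fun i j => ?_⟩
  · rw [tp_map (G.inv_mem hγ), hb₁, hb₁, tp_map hkw, hb₀]
  · rw [hback]
    have h4 : tp G (γ a) (b₁ j) = e (tp G a (b₁ j)) :=
      hγe a (Finset.mem_union_left _ ha) (b₁ j) (hmem j)
    have h5 := hE.inv G.one_mem (G.inv_mem hγ) a (b₁ j)
    rw [Perm.one_apply] at h5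
    rw [h4, h5, hE.hJ, hab a ha j]
  · rw [hback]
    have h4 : tp G (γ (x i)) (b₁ j) = e (tp G (x i) (b₁ j)) :=
      hγe (x i) (Finset.mem_union_right _
        (Finset.mem_image_of_mem _ (Finset.mem_univ i))) (b₁ j) (hmem j)
    rw [h4, hxb, hxb₀]

/-- (alpha) (`BX.exists_after` for `J₀`, `EX.unk_after`, then `EX.dich` with `h = 1`, `S = c`,
`uQ = u`; `st G c` fixes `c`, use `EX.unk_map`.) -/
theorem EX.alpha [Countable D] (hE : EX G s e J₀ J) (c : Finset D) (u : D → D)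
    (hu : Emb G u) (huc : CanU G ∅ c u) (X : Finset D) : Unk G s J e c (X.image u) := by
  obtain ⟨u', hu', huc', h'⟩ := hE.toBX.exists_after hE.inv₀ hE.leg₀ c
  obtain ⟨B, hB⟩ := hE.dich c u' u hu' huc' hu huc X
  obtain ⟨g, hg, -, h1⟩ := hB 1 G.one_mem c (by
    refine hE.unk_after c u' hu' huc' h' _ fun y hy => ?_
    obtain ⟨z, hz, rfl⟩ := Finset.mem_image.1 hy
    exact (Finset.mem_filter.1 hz).2)
  have hg' := mem_st.1 hg
  have e1 : c.image g = c := by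
    ext a
    rw [Finset.mem_image]
    constructor
    · rintro ⟨b, hb, rfl⟩
      rwa [hg'.2 b hb]
    · exact fun ha => ⟨a, ha, hg'.2 a ha⟩
  have e2 : (X.image u).image g = X.image fun x => (1 : Perm D) (g (u x)) := by
    rw [Finset.image_image]
    rfl
  rw [← hE.unk_map hg'.1, e1, e2]
  exact h1

end Pool.Agent.MP_f99268_lc
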