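import Pool.Agent.Lib.MP_f99268_lc_W.Ctx

/-!
# Networks of types of pairs
-/

namespace Pool.Agent.MP_f99268_lc

open Equiv Classical

variable {ι : Type} {ar : ι → ℕ} {D : Type}

/-- All bounds have size at most `s`. -/
def BoundedBy (s : ℕ) (Δ : Str ι ar D) : Prop :=
  ∀ (M : Type) (_ : Finite M) (m : Str ι ar M),
    (∀ S : Set M, S.ncard ≤ s → ∃ f : S → D, IsEmb (m.on S) Δ f) → ∃ f : M → D, IsEmb m Δ f

theorem BoundedBy.mono {Δ : Str ι ar D} {s s' : ℕ} (h : BoundedBy s Δ) (hs : s ≤ s') :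
    BoundedBy s' Δ :=
  fun M hM m hm => h M hM m fun S hS => hm S (hS.trans hs)

/-- The case of networks without equal points. -/
private theorem net_inj {Δ : Str ι ar D} (hΔ : Homogeneous Δ) (har : ∀ i, ar i ≤ 2) {s : ℕ}
    (hs : 4 ≤ s) (hb : BoundedBy s Δ) {M : Type} [Finite M] (P : M → M → PT (autG Δ))
    (hd : ∀ a b u, P a b = tp (autG Δ) u u → a = b)
    (h : ∀ T : Finset M, T.card ≤ s → ∃ f : M → D, ∀ x ∈ T, ∀ y ∈ T,
      tp (autG Δ) (f x) (f y) = P x y) :
    ∃ f : M → D, ∀ x y, tp (autG Δ) (f x) (f y) = P x y := by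
  let m : Str ι ar M :=
    { lt := fun a b => ∃ u v, tp (autG Δ) u v = P a b ∧ Δ.lt u v
      rel := fun i t => ∃ φ : Fin (ar i) → D,
        (∀ k k', tp (autG Δ) (φ k) (φ k') = P (t k) (t k')) ∧ Δ.rel i φ }
  have hm : ∀ (S : Set M) (f : S → D), (∀ x y, tp (autG Δ) (f x) (f y) = P x y) →
      IsEmb (m.on S) Δ f := by
    intro S f hf
    refine ⟨?_, ?_, ?_⟩
    · intro a b hab
      have h1 := hf a b
      rw [hab] at h1
      exact Subtype.ext (hd _ _ _ h1.symm)
    · intro x y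
      constructor
      · exact fun h1 => ⟨_, _, hf x y, h1⟩
      · rintro ⟨u, v, h1, h2⟩
        obtain ⟨g, hg, h4, h5⟩ := tp_eq.1 (h1.trans (hf x y).symm)
        rw [← h4, ← h5]
        exact (hg.2.1 u v).2 h2
    · intro i t
      constructor
      · exact fun h1 => ⟨fun k => f (t k), fun k k' => hf _ _, h1⟩
      · rintro ⟨φ, h1, h2⟩
        obtain ⟨g, hg, h4⟩ := orb_pairs hΔ har φ (fun k => f (t k))
          (fun k k' => (h1 k k').trans (hf _ _).symm)
        have h5 := (hg.2.2 i φ).2 h2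
        have e : (fun k => g (φ k)) = fun k => f (t k) := by
          funext k
          exact h4 k
        rwa [e] at h5
  obtain ⟨f, hf⟩ := hb M inferInstance m (by
    intro S hS
    have hfin : S.Finite := S.toFinite
    obtain ⟨f, hf⟩ := h hfin.toFinset (by rw [← Set.ncard_eq_toFinset_card S hfin]; exact hS)
    exact ⟨fun x => f x, hm S _ (fun x y => hf x (hfin.mem_toFinset.2 x.2) y
      (hfin.mem_toFinset.2 y.2))⟩)
  refine ⟨f, fun a b => ?_⟩
  obtain ⟨φ, hφ⟩ := h {a, b} (Finset.card_le_two.trans (by omega))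
  have hin : ∀ x : ({a, b} : Set M), (x : M) ∈ ({a, b} : Finset M) := by
    rintro ⟨x, hx⟩
    simpa using hx
  have hφ' := hm {a, b} (fun x => φ x) (fun x y => hφ x (hin x) y (hin y))
  have ha : a ∈ ({a, b} : Set M) := by simp
  have hb' : b ∈ ({a, b} : Set M) := by simp
  rw [← hφ a (hin ⟨a, ha⟩) b (hin ⟨b, hb'⟩)]
  -- the map `φ x ↦ f x`
  let ψ : D → D := fun d => if hex : ∃ x : ({a, b} : Set M), φ x = d then f hex.choose else d
  have hψ : ∀ x : ({a, b} : Set M), ψ (φ x) = f x := by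
    intro x
    have hex : ∃ x' : ({a, b} : Set M), φ x' = φ x := ⟨x, rfl⟩
    have e : ψ (φ x) = f hex.choose := dif_pos hex
    rw [e]
    have := hφ'.1 hex.choose_spec
    rw [this]
  obtain ⟨g, hg, hgψ⟩ := hΔ.ext (S := φ '' {a, b}) (Set.toFinite _) (f := ψ) (by
    refine ⟨?_, ?_, ?_⟩
    · rintro _ ⟨x, hx, rfl⟩ _ ⟨y, hy, rfl⟩ hxy
      rw [hψ ⟨x, hx⟩, hψ ⟨y, hy⟩] at hxy
      exact congrArg φ (hf.1 hxy)
    · rintro _ ⟨x, hx, rfl⟩ _ ⟨y, hy, rfl⟩
      rw [hψ ⟨x, hx⟩, hψ ⟨y, hy⟩, hf.2.1]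
      exact (hφ'.2.1 ⟨x, hx⟩ ⟨y, hy⟩).symm
    · intro i t ht
      choose s hs hst using ht
      have e1 : (fun k => ψ (t k)) = fun k => f (s k) := by
        funext k
        rw [← hst k]
        exact hψ ⟨s k, hs k⟩
      have e2 : t = fun k => φ (s k) := by
        funext k
        exact (hst k).symm
      rw [e1, hf.2.2]
      have h6 := (hφ'.2.2 i (fun k => ⟨s k, hs k⟩)).symm
      refine h6.trans ?_
      rw [e2])
  refine (tp_eq.2 ⟨g, hg, ?_, ?_⟩).symm
  · rw [hgψ _ ⟨a, ha, rfl⟩]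
    exact hψ ⟨a, ha⟩
  · rw [hgψ _ ⟨b, hb', rfl⟩]
    exact hψ ⟨b, hb'⟩

/-- A finite network of types of pairs is realised if its parts of size at most `s` are.
(Adapt `net` of Lib/MP_f99268_lc_U/Bin.lean, first for networks `P` with
`∀ a b u, P a b = tp (autG Δ) u u → a = b`; then, in general, `a ~ b` iff
`∃ u, P a b = tp (autG Δ) u u` is an equivalence relation that `P` respects, by the hypothesis for
`T` of size at most four; take representatives.) -/
theorem net_s {Δ : Str ι ar D} (hΔ : Homogeneous Δ) (har : ∀ i, ar i ≤ 2) {s : ℕ} (hs : 4 ≤ s)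
    (hb : BoundedBy s Δ) {M : Type} [Finite M] (P : M → M → PT (autG Δ))
    (h : ∀ T : Finset M, T.card ≤ s → ∃ f : M → D, ∀ x ∈ T, ∀ y ∈ T,
      tp (autG Δ) (f x) (f y) = P x y) :
    ∃ f : M → D, ∀ x y, tp (autG Δ) (f x) (f y) = P x y := by
  have hrefl : ∀ a, ∃ u, P a a = tp (autG Δ) u u := by
    intro a
    obtain ⟨f, hf⟩ := h {a} (by rw [Finset.card_singleton]; omega)
    exact ⟨f a, (hf a (by simp) a (by simp)).symm⟩
  have hsymm : ∀ a b, (∃ u, P a b = tp (autG Δ) u u) → ∃ u, P b a = tp (autG Δ) u u := by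
    rintro a b ⟨u, hu⟩
    obtain ⟨f, hf⟩ := h {a, b} (Finset.card_le_two.trans (by omega))
    have h1 : f a = f b := tp_diag ((hf a (by simp) b (by simp)).trans hu)
    refine ⟨f a, ?_⟩
    rw [← hf b (by simp) a (by simp), h1]
  have htrans : ∀ a b c, (∃ u, P a b = tp (autG Δ) u u) → (∃ u, P b c = tp (autG Δ) u u) →
      ∃ u, P a c = tp (autG Δ) u u := by
    rintro a b c ⟨u, hu⟩ ⟨v, hv⟩
    obtain ⟨f, hf⟩ := h {a, b, c} (Finset.card_le_three.trans (by omega))
    have h1 : f a = f b := tp_diag ((hf a (by simp) b (by simp)).trans hu)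
    have h2 : f b = f c := tp_diag ((hf b (by simp) c (by simp)).trans hv)
    refine ⟨f a, ?_⟩
    rw [← hf a (by simp) c (by simp), ← h2, ← h1]
  have hresp : ∀ a b c d, (∃ u, P a b = tp (autG Δ) u u) → (∃ u, P c d = tp (autG Δ) u u) →
      P a c = P b d := by
    rintro a b c d ⟨u, hu⟩ ⟨v, hv⟩
    obtain ⟨f, hf⟩ := h {a, b, c, d} (Finset.card_le_four.trans hs)
    have h1 : f a = f b := tp_diag ((hf a (by simp) b (by simp)).trans hu)
    have h2 : f c = f d := tp_diag ((hf c (by simp) d (by simp)).trans hv)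
    rw [← hf a (by simp) c (by simp), ← hf b (by simp) d (by simp), h1, h2]
  let S : Setoid M :=
    { r := fun a b => ∃ u, P a b = tp (autG Δ) u u
      iseqv := ⟨hrefl, fun {a b} => hsymm a b, fun {a b c} => htrans a b c⟩ }
  have hout : ∀ a : M, ∃ u, P (Quotient.out (Quotient.mk S a)) a = tp (autG Δ) u u :=
    fun a => Quotient.mk_out (s := S) a
  obtain ⟨f, hf⟩ := net_inj hΔ har hs hb (M := Quotient S)
    (fun x y => P (Quotient.out x) (Quotient.out y))
    (by
      intro a b u hab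
      have h1 : S.r (Quotient.out a) (Quotient.out b) := ⟨u, hab⟩
      have h2 := Quotient.sound (s := S) h1
      rwa [Quotient.out_eq, Quotient.out_eq] at h2)
    (by
      intro T hT
      obtain ⟨f, hf⟩ := h (T.image Quotient.out) (Finset.card_image_le.trans hT)
      exact ⟨fun x => f (Quotient.out x), fun x hx y hy =>
        hf _ (Finset.mem_image_of_mem _ hx) _ (Finset.mem_image_of_mem _ hy)⟩)
  refine ⟨fun a => f (Quotient.mk S a), fun a b => ?_⟩
  rw [hf]
  exact hresp _ _ _ _ (hout a) (hout b)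

end Pool.Agent.MP_f99268_lc
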