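import Pool.Agent.Lib.MP_f99268_lc_W.ReachA

/-!
# Patterns, and a minimal idempotent reachable position
-/

namespace Pool.Agent.MP_f99268_lc

open Equiv Classical

variable {D : Type} {G : Subgroup (Perm D)} {s : ℕ}

/-- (Move the rows `x` by an element `g` that realises `φ` over the columns `b`.) -/
theorem pp_comp {ρ φ : PT G → PT G} (hφ : LegM G (fun x b => φ (tp G x b))) :
    PP G s (fun t => ρ (φ t)) ⊆ PP G s ρ := by
  rintro π ⟨x, b, h1, h2, h3⟩
  obtain ⟨g, hg, h⟩ := hφ (Finset.univ.image x) (Finset.univ.image b)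
  refine ⟨fun i => g (x i), b, fun i j => ?_, h2, fun i j => ?_⟩
  · rw [tp_map hg]
    exact h1 i j
  · have h4 := h (x i) (Finset.mem_image_of_mem _ (Finset.mem_univ i)) (b j)
      (Finset.mem_image_of_mem _ (Finset.mem_univ j))
    rw [h4]
    exact h3 i j

/-- Iterates of a self-map of a finite type become idempotent. -/
theorem exists_idem {α : Type*} [Finite α] (f : α → α) :
    ∃ n, 0 < n ∧ ∀ x, f^[n] (f^[n] x) = f^[n] x := by
  obtain ⟨i, j, hij, h⟩ : ∃ i j : ℕ, i < j ∧ f^[i] = f^[j] := by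
    obtain ⟨i, j, hij, h⟩ := Finite.exists_ne_map_eq_of_infinite (fun m : ℕ => f^[m])
    rcases lt_or_gt_of_ne hij with hl | hl
    · exact ⟨i, j, hl, h⟩
    · exact ⟨j, i, hl, h.symm⟩
  have hd : ∀ m, i ≤ m → f^[m + (j - i)] = f^[m] := by
    intro m hm
    obtain ⟨k, rfl⟩ := Nat.exists_eq_add_of_le hm
    have e : i + k + (j - i) = j + k := by omega
    rw [e, Function.iterate_add, Function.iterate_add, h]
  have hk : ∀ k m, i ≤ m → f^[m + k * (j - i)] = f^[m] := by
    intro k
    induction k with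
    | zero =>
      intro m _
      simp
    | succ k ih =>
      intro m hm
      have e : m + (k + 1) * (j - i) = (m + k * (j - i)) + (j - i) := by ring
      rw [e, hd _ (by omega), ih m hm]
  have h1 : 1 ≤ j - i := by omega
  refine ⟨(i + 1) * (j - i), by positivity, fun x => ?_⟩
  rw [← Function.iterate_add_apply, hk (i + 1) _ (by nlinarith)]

/-- (Take `e₀` reachable with `PP G s e₀` of minimal cardinality; `Pt G s` is finite by
`finite_PT`. An iterate `e` of `e₀` is idempotent, reachable by `reach_comp`, `PP G s e ⊆ PP G s e₀`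
by `pp_comp`, hence equal.) -/
theorem BX.exists_min (hX : BX G s) : ∃ e : PT G → PT G, Reach G e ∧ (∀ t, e (e t) = e t) ∧
    ∀ φ, Reach G φ → PP G s (fun t => e (φ t)) = PP G s e := by
  have hfin : Finite (PT G) := finite_PT hX.olig
  let S : Set ℕ := {n | ∃ e : PT G → PT G, Reach G e ∧ (PP G s e).ncard = n}
  have hS : S.Nonempty := ⟨_, fun t => t, reach_id, rfl⟩
  obtain ⟨e₀, he₀, hn⟩ := Nat.sInf_mem hS
  have hmin : ∀ φ, Reach G φ → (PP G s e₀).ncard ≤ (PP G s φ).ncard := fun φ hφ => by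
    rw [hn]
    exact Nat.sInf_le ⟨φ, hφ, rfl⟩
  have hit : ∀ n, Reach G e₀^[n] := by
    intro n
    induction n with
    | zero => exact reach_id
    | succ n ih => exact BX.reach_comp (ρ := e₀^[n]) (ρ' := e₀) ih he₀
  obtain ⟨n, hn0, hid⟩ := exists_idem e₀
  obtain ⟨k, rfl⟩ := Nat.exists_eq_succ_of_ne_zero hn0.ne'
  have hsub : PP G s e₀^[k + 1] ⊆ PP G s e₀ := by
    rw [Function.iterate_succ']
    exact pp_comp (ρ := e₀) (φ := e₀^[k]) (hit k).1
  have heq : PP G s e₀^[k + 1] = PP G s e₀ :=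
    Set.eq_of_subset_of_ncard_le hsub (hmin _ (hit _)) (Set.toFinite _)
  refine ⟨e₀^[k + 1], hit _, hid, fun φ hφ => ?_⟩
  refine Set.eq_of_subset_of_ncard_le (pp_comp hφ.1) ?_ (Set.toFinite _)
  rw [heq]
  exact hmin _ (BX.reach_comp (hit _) hφ)

end Pool.Agent.MP_f99268_lc
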