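import Pool.Agent.Lib.MP_f99268_lc_W.ReachA

/-!
# Reachable positions: links
-/

namespace Pool.Agent.MP_f99268_lc

open Equiv Classical

variable {D : Type} {G : Subgroup (Perm D)} {s : ℕ}

/-- (OP) of the text. `P` and `Q` are the regions of `uP` and `uQ` over `c`. -/
theorem BX.op {e φ : PT G → PT G} (he : Reach G e) (c : Finset D)
    (uP uQ : D → D) (hP : Emb G uP) (hPc : CanU G ∅ c uP) (hQ : Emb G uQ) (hQc : CanU G ∅ c uQ)
    (M : D → D → PT G) (hM : LegM G M)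
    (hMP : ∀ x b, InR G c uP x → M x b = e (tp G x b))
    (hMQ : ∀ x b, InR G c uQ x → InR G c uQ b → M x b = φ (tp G x b)) : Reach G φ := by
  refine ⟨?_, Rch.link he.2 c uP uQ hP hPc hQ hQc M hM hMP hMQ⟩
  intro X B
  obtain ⟨k, hk, h1⟩ := hQ (X ∪ B)
  obtain ⟨g, hg, h2⟩ := hM (X.image uQ) (B.image uQ)
  refine ⟨k⁻¹ * g * k, G.mul_mem (G.mul_mem (G.inv_mem hk) hg) hk, fun x hx b hb => ?_⟩
  have h3 := h2 _ (Finset.mem_image_of_mem _ hx) _ (Finset.mem_image_of_mem _ hb)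
  rw [hMQ _ _ (inR_self hQ hQc x) (inR_self hQ hQc b), h1 x (Finset.mem_union_left _ hx),
    h1 b (Finset.mem_union_right _ hb), tp_map hk] at h3
  show _ = φ (tp G x b)
  rw [← h3, ← tp_map hk]
  simp

/-- The step between two regions over `c`. -/
def mkReg (c : Finset D) (u v : D → D) (hu : Emb G u) (huc : CanU G ∅ c u) (hv : Emb G v)
    (hvc : CanU G ∅ c v) : Reg G where
  c := c
  P := {x | InR G c u x}
  Q := {x | InR G c v x}
  hP := fun _ hg _ hx => InR.map huc hg hx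
  hQ := fun _ hg _ hx => InR.map hvc hg hx
  uP := u
  uP_emb := hu
  uP_can := huc
  uP_mem := inR_self hu huc
  uQ := v
  uQ_emb := hv
  uQ_can := hvc
  uQ_mem := inR_self hv hvc

/-- The zone of a matrix: rows in the region of `u`, columns in the region of `v`. -/
def Zm (G : Subgroup (Perm D)) (c : Finset D) (u v : D → D) (M : D → D → PT G)
    (B Y : Finset D) : Prop :=
  ∃ h ∈ G, ∃ g ∈ G, (∀ y ∈ Y, InR G c u (h y)) ∧ (∀ b ∈ B, InR G c v (g b)) ∧
    ∀ y ∈ Y, ∀ b ∈ B, tp G y b = M (h y) (g b)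

theorem Zm.anti {c : Finset D} {u v : D → D} {M : D → D → PT G} {B : Finset D} :
    Anti (Zm G c u v M B) := by
  rintro Y Y' hY ⟨h, hh, g, hg, h1, h2, h3⟩
  exact ⟨h, hh, g, hg, fun y hy => h1 y (hY hy), h2, fun y hy => h3 y (hY hy)⟩

theorem Zr.anti {ρ : PT G → PT G} {B : Finset D} : Anti (Zr G ρ B) := by
  rintro Y Y' hY ⟨h, hh, g, hg, h3⟩
  exact ⟨h, hh, g, hg, fun y hy => h3 y (hY hy)⟩

/-- The glueing step for a matrix. -/
theorem BX.step (hX : BX G s) (c : Finset D) (u u' v : D → D) (hu : Emb G u)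
    (huc : CanU G ∅ c u) (hu' : Emb G u') (huc' : CanU G ∅ c u') {M : D → D → PT G}
    (hM : LegM G M) (B : Finset D) :
    StepR (mkReg c u u' hu huc hu' huc') (Zm G c u v M B) (Zm G c u' v M B) := by
  intro A τ hτ hZ
  obtain ⟨h, hh, g, hg, h1, h2, h3⟩ := hZ
  have hP : ∀ a ∈ A, a ∈ (mkReg c u u' hu huc hu' huc').P → InR G c u a := fun a _ h => h
  -- shadows of the whole set
  obtain ⟨k, hk, h4⟩ := hX.move_in huc
    (fun a : {a // a ∈ A.filter (· ∈ (mkReg c u u' hu huc hu' huc').P)} => a.1)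
    (fun a => h (τ a.1))
    (fun a => hP _ (Finset.mem_filter.1 a.2).1 (Finset.mem_filter.1 a.2).2)
    (fun a => h1 _ (Finset.mem_image_of_mem _ a.2))
    (fun a b => by rw [tp_map hh, tp_map hτ])
  obtain ⟨γ, hγ, h5⟩ := hM (A.image k) (B.image g)
  have hkG := st_le hk
  have h6 : ∀ a ∈ A, ∀ b ∈ B, tp G ((g⁻¹ * γ * k) a) b = M (k a) (g b) := by
    intro a ha b hb
    rw [← h5 _ (Finset.mem_image_of_mem _ ha) _ (Finset.mem_image_of_mem _ hb), ← tp_map hg]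
    simp
  obtain ⟨k', hk', h7⟩ := hX.move B
    (fun a : {a // a ∈ A.filter (· ∈ (mkReg c u u' hu huc hu' huc').P)} =>
      (g⁻¹ * γ * k) a.1) (fun a => τ a.1) (fun a b => by
        rw [tp_map (G.mul_mem (G.mul_mem (G.inv_mem hg) hγ) hkG), tp_map hτ])
    (fun a b hb => by
      rw [h6 _ (Finset.mem_filter.1 a.2).1 b hb, h4 a,
        h3 _ (Finset.mem_image_of_mem _ a.2) b hb])
  have hσ : k' * (g⁻¹ * γ * k) ∈ G :=
    G.mul_mem (st_le hk') (G.mul_mem (G.mul_mem (G.inv_mem hg) hγ) hkG)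
  refine ⟨k' * (g⁻¹ * γ * k), hσ, fun a ha haP => ?_, k * (k' * (g⁻¹ * γ * k))⁻¹,
    G.mul_mem hkG (G.inv_mem hσ), g, hg, ?_, h2, ?_⟩
  · exact h7 ⟨a, Finset.mem_filter.2 ⟨ha, haP⟩⟩
  · intro y hy
    obtain ⟨a, ha, rfl⟩ := Finset.mem_image.1 hy
    have e : (k * (k' * (g⁻¹ * γ * k))⁻¹) ((k' * (g⁻¹ * γ * k)) a) = k a := by
      simp
    rw [e]
    exact InR.map huc' hk (Finset.mem_filter.1 ha).2
  · intro y hy b hb
    obtain ⟨a, ha, rfl⟩ := Finset.mem_image.1 hy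
    have e : (k * (k' * (g⁻¹ * γ * k))⁻¹) ((k' * (g⁻¹ * γ * k)) a) = k a := by
      simp
    rw [e, ← h6 a (Finset.mem_filter.1 ha).1 b hb]
    have h8 := tp_map (st_le hk') ((g⁻¹ * γ * k) a) b
    rw [(mem_st.1 hk').2 b hb] at h8
    rw [← h8, Perm.mul_apply]

theorem BX.reach_run (hX : BX G s) {ρ : PT G → PT G} (h : Rch G ρ) :
    ∃ l : List (Reg G), ∀ B, Run l (fun _ => True) (Zr G ρ B) := by
  induction h with
  | id => exact ⟨[], fun B Y _ => ⟨1, G.one_mem, 1, G.one_mem, fun _ _ _ _ => rfl⟩⟩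
  | @link ρ φ _ c uP uQ hP hPc hQ hQc M hM hMP hMQ ih =>
    obtain ⟨l, hl⟩ := ih
    have hρ : LegM G (fun x b => ρ (tp G x b)) := by
      intro X B
      obtain ⟨k, hk, h1⟩ := hP (X ∪ B)
      obtain ⟨g, hg, h2⟩ := hM (X.image uP) (B.image uP)
      refine ⟨k⁻¹ * g * k, G.mul_mem (G.mul_mem (G.inv_mem hk) hg) hk, fun x hx b hb => ?_⟩
      have h3 := h2 _ (Finset.mem_image_of_mem _ hx) _ (Finset.mem_image_of_mem _ hb)
      rw [hMP _ _ (inR_self hP hPc x), h1 x (Finset.mem_union_left _ hx),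
        h1 b (Finset.mem_union_right _ hb), tp_map hk] at h3
      show _ = ρ (tp G x b)
      rw [← h3, ← tp_map hk]
      simp
    refine ⟨l ++ ([mkReg c uQ uP hQ hQc hP hPc] ++ [mkReg c uP uQ hP hPc hQ hQc]), fun B => ?_⟩
    refine (hl B).append (Run.append (Z' := Zm G c uP uQ M B) ?_ ?_)
    · refine ⟨Zm G c uP uQ (fun x b => ρ (tp G x b)) B, Zm.anti, ?_, ?_⟩
      · intro A τ hτ hZ
        refine hX.step c uQ uP uQ hQ hQc hP hPc hρ B A τ hτ ?_
        obtain ⟨h, hh, g, hg, h1⟩ := hZ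
        set Y := (A.filter (· ∈ (mkReg c uQ uP hQ hQc hP hPc).P)).image τ with hY
        obtain ⟨k, hk, h2⟩ := hQ (Y.image h ∪ B.image g)
        refine ⟨k * h, G.mul_mem hk hh, k * g, G.mul_mem hk hg, ?_, ?_, ?_⟩
        · intro y hy
          rw [Perm.mul_apply, ← h2 _ (Finset.mem_union_left _ (Finset.mem_image_of_mem _ hy))]
          exact inR_self hQ hQc _
        · intro b hb
          rw [Perm.mul_apply, ← h2 _ (Finset.mem_union_right _ (Finset.mem_image_of_mem _ hb))]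
          exact inR_self hQ hQc _
        · intro y hy b hb
          show tp G y b = ρ (tp G (k (h y)) (k (g b)))
          rw [tp_map hk]
          exact h1 y hy b hb
      · rintro Y ⟨h, hh, g, hg, h1, h2, h3⟩
        refine ⟨h, hh, g, hg, h1, h2, fun y hy b hb => ?_⟩
        rw [h3 y hy b hb, hMP _ _ (h1 y hy)]
    · refine ⟨Zm G c uQ uQ M B, Zm.anti, hX.step c uP uQ uQ hP hPc hQ hQc hM B, ?_⟩
      rintro Y ⟨h, hh, g, hg, h1, h2, h3⟩
      refine ⟨h, hh, g, hg, fun y hy b hb => ?_⟩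
      rw [h3 y hy b hb, hMQ _ _ (h1 y hy) (h2 b hb)]

end Pool.Agent.MP_f99268_lc
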