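import Pool.Agent.Lib.MP_f99268_lc_W.StgL
import Pool.Agent.Lib.MP_f99268_lc_W.PatL
import Pool.Agent.Lib.MP_f99268_lc_W.ReachB
import Pool.Agent.Lib.MP_f99268_lc_W.Net

/-!
# Q1 for binary structures
-/

namespace Pool.Agent.MP_f99268_lc

open Equiv Classical

variable {ι : Type} {ar : ι → ℕ} {D : Type}

private theorem MainL_swap {G : Subgroup (Perm D)} {x y b : D} (h : tp G x b = tp G y b) :
    tp G b x = tp G b y := by
  obtain ⟨g, hg, h1, h2⟩ := tp_eq.1 h
  exact tp_eq.2 ⟨g, hg, h2, h1⟩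

private theorem MainL_pair {G : Subgroup (Perm D)} {g h : Perm D} (hg : g ∈ G) (hh : h ∈ G)
    {x y : D} : tp G (g x) (g y) = tp G (h x) (h y) := by
  refine tp_eq.2 ⟨h * g⁻¹, G.mul_mem hh (G.inv_mem hg), ?_, ?_⟩ <;> simp

/-- The glueing chain. -/
theorem BX.exists_glue [Countable D] {G : Subgroup (Perm D)} {s : ℕ} (hX : BX G s) :
    Nonempty (Glue G) := by
  obtain ⟨e, hre, hid, hmin⟩ := hX.exists_min
  obtain ⟨J₀, hinv₀, hleg₀⟩ := hX.exists_J
  have hE : EX G s e J₀ (fun x b => e (J₀ x b)) :=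
    { hX with
      reach := hre
      idem := hid
      min := hmin
      inv₀ := hinv₀
      leg₀ := hleg₀
      hJ := fun _ _ => rfl }
  have hfar := hE.far
  set J : D → D → PT G := fun x b => e (J₀ x b) with hJ
  have hinv : ∀ g ∈ G, ∀ h ∈ G, ∀ x b, J (g x) (h b) = J x b := by
    intro g hg h hh x b
    rw [hJ]
    simp only
    rw [hinv₀ g hg h hh]
  have hleg : LegM G J := by
    intro X B
    obtain ⟨g, hg, h1⟩ := hre.1 X B
    refine ⟨g, hg, fun x hx b hb => ?_⟩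
    rw [h1 x hx b hb]
    exact hfar x b
  obtain ⟨l, hl⟩ := hX.reach_run hre.2
  choose t ht htc htJ using fun B : Finset D => hX.exists_before hinv hleg B
  refine run_glue (l := l) (Z' := fun B => Zr G e B) ?_ (fun B => Zr.anti) t ht htc ?_
  · intro B
    exact Run.mono (hl B) (fun Y _ => trivial) (fun _ h => h)
  · rintro B m x σ hσ ⟨h, hh, k, hk, h1⟩
    have h2 : ∀ i, ∀ b ∈ B, tp G (σ (x i)) b = tp G (t B (x i)) b := by
      intro i b hb
      rw [h1 (σ (x i)) (Finset.mem_image_of_mem _ (Finset.mem_univ i)) b hb, hfar,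
        htJ B b hb (x i)]
      exact hinv (h * σ) (G.mul_mem hh hσ) k hk (x i) b
    have h5 : ∀ i j, tp G (t B (x i)) (t B (x j)) = tp G (σ (x i)) (σ (x j)) := by
      intro i j
      obtain ⟨g, hg, h6⟩ := ht B {x i, x j}
      rw [h6 (x i) (by simp), h6 (x j) (by simp)]
      exact MainL_pair hg hσ
    obtain ⟨g, hg, h7⟩ := hX.bin (Fin m ⊕ {b // b ∈ B})
      (Sum.elim (fun i => t B (x i)) fun b => b.1) (Sum.elim (fun i => σ (x i)) fun b => b.1) (by
        rintro (i | b) (j | b')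
        · exact h5 i j
        · exact (h2 i b'.1 b'.2).symm
        · exact MainL_swap (h2 j b.1 b.2).symm
        · rfl)
    refine ⟨g, mem_st.2 ⟨hg, fun b hb => h7 (Sum.inr ⟨b, hb⟩)⟩, fun i => h7 (Sum.inl i)⟩

/-- (`olig_autG`, `fr_autG`, `orb_pairs`, `net_s`.) -/
theorem bx_of [Countable D] [Finite ι] {Δ : Str ι ar D}
    (hlin : IsStrictTotalOrder D Δ.lt) (hΔ : Homogeneous Δ) (hR : RamseyProperty Δ)
    (har : ∀ i, ar i ≤ 2) {s : ℕ} (hb : BoundedBy s Δ) : BX (autG Δ) (max s 4) := by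
  exact
    { four := le_max_right s 4
      olig := olig_autG hlin hΔ
      ramsey := fr_autG hlin hΔ hR
      bin := fun α _ x y h => orb_pairs hΔ har x y h
      net := fun M _ P h => net_s hΔ har (le_max_right s 4) (hb.mono (le_max_left s 4)) P h }

theorem bin_main [Countable D] [Finite ι] {Δ : Str ι ar D}
    (hlin : IsStrictTotalOrder D Δ.lt) (hΔ : Homogeneous Δ) (hR : RamseyProperty Δ)
    (har : ∀ i, ar i ≤ 2) {s : ℕ} (hb : BoundedBy s Δ)
    {Γ : (n : ℕ) → Set (Set (Fin n → D))} (hΓ : IsReduct Δ Γ)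
    (hno : ¬ HasHomToProjections (Pol Γ)) :
    ∃ (n : ℕ) (c : Fin n → D), ∀ m, ¬ HasHomToProjections (TypeClone Δ c (Pol Γ) m) := by
  obtain ⟨gl⟩ := (bx_of hlin hΔ hR har hb).exists_glue
  exact of_glue hlin hΔ hR gl hΓ hno

end Pool.Agent.MP_f99268_lc
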