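import Pool.Agent.Lib.MP_f99268_lc_W.Defs
import Pool.Agent.Lib.MP_f99268_lc_W.MainL

/-!
# Q1 for finitely bounded binary structures
-/

namespace Pool.Agent.MP_f99268_lc

open Equiv Classical

variable {ι : Type} {ar : ι → ℕ} {D : Type}

theorem FinitelyBounded.exists_bound {Δ : Str ι ar D} (h : FinitelyBounded Δ) :
    ∃ s, BoundedBy s Δ := by
  obtain ⟨k, n, F, hF⟩ := h
  refine ⟨Finset.univ.sup n, fun M hM m hm => ?_⟩
  rw [hF M hM m]
  rintro i ⟨f, hf⟩
  have hfin : (Set.range f).Finite := Set.finite_range f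
  have hcard : (Set.range f).ncard ≤ Finset.univ.sup n := by
    have h1 : (Set.range f).ncard ≤ n i := by
      rw [← Set.image_univ]
      refine (Set.ncard_image_le Set.finite_univ).trans ?_
      rw [Set.ncard_univ]
      simp
    exact h1.trans (Finset.le_sup (f := n) (Finset.mem_univ i))
  obtain ⟨f', hf'⟩ := hm (Set.range f) hcard
  have h2 := (hF (Set.range f) hfin (m.on (Set.range f))).1 ⟨f', hf'⟩ i
  apply h2
  refine ⟨fun x => ⟨f x, x, rfl⟩, fun x y hxy => ?_, hf.2.1, hf.2.2⟩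
  exact hf.1 (congrArg Subtype.val hxy)

theorem binary_main [Countable D] [Finite ι] {Δ : Str ι ar D}
    (hlin : IsStrictTotalOrder D Δ.lt) (hΔ : Homogeneous Δ) (hR : RamseyProperty Δ)
    (har : ∀ i, ar i ≤ 2) (hb : FinitelyBounded Δ)
    {Γ : (n : ℕ) → Set (Set (Fin n → D))} (hΓ : IsReduct Δ Γ)
    (hno : ¬ HasHomToProjections (Pol Γ)) :
    ∃ (n : ℕ) (c : Fin n → D), ∀ m, ¬ HasHomToProjections (TypeClone Δ c (Pol Γ) m) := by
  obtain ⟨s, hs⟩ := hb.exists_bound
  exact bin_main hlin hΔ hR har hs hΓ hno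

end Pool.Agent.MP_f99268_lc
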