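import Pool.Agent.Lib.MP_f99268_lc_U.Far

/-!
# Binary groups: definitions

`G` is a group of permutations of `D`. Types of pairs `tp G x y : PT G` are the orbits of pairs.
Rows are points of a moving copy of `D`, columns are points of the fixed set `B`.
-/

namespace Pool.Agent.MP_f99268_lc

open Equiv Classical

variable {D : Type}

/-- Binary, finitely bounded, Ramsey, oligomorphic. -/
structure BX (G : Subgroup (Perm D)) (s : ℕ) : Prop where
  four : 4 ≤ s
  olig : Olig G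
  ramsey : FR G Bool
  bin : ∀ (α : Type) [Finite α] (x y : α → D),
    (∀ a b, tp G (x a) (x b) = tp G (y a) (y b)) → ∃ g ∈ G, ∀ a, g (x a) = y a
  net : ∀ (M : Type) [Finite M] (P : M → M → PT G),
    (∀ T : Finset M, T.card ≤ s → ∃ f : M → D, ∀ x ∈ T, ∀ y ∈ T, tp G (f x) (f y) = P x y) →
    ∃ f : M → D, ∀ x y, tp G (f x) (f y) = P x y

/-- The region of `u` over `c`. -/
def InR (G : Subgroup (Perm D)) (c : Finset D) (u : D → D) (x : D) : Prop :=
  ∀ a ∈ c, tp G a x = tp G a (u x)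

/-- The data of one glueing step. -/
structure Reg (G : Subgroup (Perm D)) where
  c : Finset D
  P : Set D
  Q : Set D
  hP : ∀ g ∈ st G c, ∀ x ∈ P, g x ∈ P
  hQ : ∀ g ∈ st G c, ∀ x ∈ Q, g x ∈ Q
  uP : D → D
  uP_emb : Emb G uP
  uP_can : CanU G ∅ c uP
  uP_mem : ∀ x, uP x ∈ P
  uQ : D → D
  uQ_emb : Emb G uQ
  uQ_can : CanU G ∅ c uQ
  uQ_mem : ∀ x, uQ x ∈ Q

/-- One glueing step. -/
def StepR {G : Subgroup (Perm D)} (r : Reg G) (Z Z' : Finset D → Prop) : Prop :=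
  ∀ A : Finset D, ∀ τ ∈ G, Z ((A.filter (· ∈ r.P)).image τ) →
    ∃ σ ∈ G, (∀ a ∈ A, a ∈ r.P → σ a = τ a) ∧ Z' ((A.filter (· ∈ r.Q)).image σ)

/-- Closed under subsets. -/
def Anti (Z : Finset D → Prop) : Prop := ∀ Y Y' : Finset D, Y' ⊆ Y → Z Y → Z Y'

/-- A list of glueing steps leads from `Z` to `Z'`. -/
def Run {G : Subgroup (Perm D)} : List (Reg G) → (Finset D → Prop) → (Finset D → Prop) → Prop
  | [], Z, Z' => ∀ Y, Z Y → Z' Y
  | r :: l, Z, Z' => ∃ Z₁ : Finset D → Prop, Anti Z₁ ∧ StepR r Z Z₁ ∧ Run l Z₁ Z'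

/-- A matrix of labels (rows, columns) is legal. -/
def LegM (G : Subgroup (Perm D)) (M : D → D → PT G) : Prop :=
  ∀ X B : Finset D, ∃ g ∈ G, ∀ x ∈ X, ∀ b ∈ B, tp G (g x) b = M x b

/-- In position `ρ` over `B`; the rows `Y` and the columns `B` are moved by elements of `G`. -/
def Zr (G : Subgroup (Perm D)) (ρ : PT G → PT G) (B Y : Finset D) : Prop :=
  ∃ h ∈ G, ∃ g ∈ G, ∀ y ∈ Y, ∀ b ∈ B, tp G y b = ρ (tp G (h y) (g b))

/-- The positions that are reached from the identity by links. The matrix `M` is `ρ` on the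
region of `uP` (rows), and `φ` on the region of `uQ` (rows and columns). -/
inductive Rch (G : Subgroup (Perm D)) : (PT G → PT G) → Prop
  | id : Rch G (fun t => t)
  | link {ρ φ : PT G → PT G} (h : Rch G ρ) (c : Finset D) (uP uQ : D → D)
      (hP : Emb G uP) (hPc : CanU G ∅ c uP) (hQ : Emb G uQ) (hQc : CanU G ∅ c uQ)
      (M : D → D → PT G) (hM : LegM G M)
      (hMP : ∀ x b, InR G c uP x → M x b = ρ (tp G x b))
      (hMQ : ∀ x b, InR G c uQ x → InR G c uQ b → M x b = φ (tp G x b)) : Rch G φ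

/-- The legal and reachable positions. -/
def Reach (G : Subgroup (Perm D)) (ρ : PT G → PT G) : Prop :=
  LegM G (fun x b => ρ (tp G x b)) ∧ Rch G ρ

/-- Patterns: labels of the rows, of the columns, and cross labels. -/
abbrev Pt (G : Subgroup (Perm D)) (s : ℕ) : Type :=
  (Fin s → Fin s → PT G) × (Fin s → Fin s → PT G) × (Fin s → Fin s → PT G)

/-- The patterns of the position `ρ`. -/
def PP (G : Subgroup (Perm D)) (s : ℕ) (ρ : PT G → PT G) : Set (Pt G s) :=
  {π | ∃ x b : Fin s → D, (∀ i j, tp G (x i) (x j) = π.1 i j) ∧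
    (∀ i j, tp G (b i) (b j) = π.2.1 i j) ∧ ∀ i j, ρ (tp G (x i) (b j)) = π.2.2 i j}

/-- The pattern `π` at the rows `x` is compatible with the rows `S` being far. -/
def Ok (G : Subgroup (Perm D)) (s : ℕ) (J : D → D → PT G) (S : Finset D) (x : Fin s → D)
    (π : Pt G s) : Prop :=
  ∃ b : Fin s → D, (∀ i j, tp G (b i) (b j) = π.2.1 i j) ∧
    (∀ a ∈ S, ∀ j, tp G a (b j) = J a (b j)) ∧ ∀ i j, tp G (x i) (b j) = π.2.2 i j

/-- The rows `Y` are not killed by the rows `S`. -/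
def Unk (G : Subgroup (Perm D)) (s : ℕ) (J : D → D → PT G) (e : PT G → PT G)
    (S Y : Finset D) : Prop :=
  ∀ x : Fin s → D, (∀ i, x i ∈ Y) → ∀ π ∈ PP G s e, (∀ i j, tp G (x i) (x j) = π.1 i j) →
    Ok G s J S x π

/-- A minimal idempotent position `e`, a far position `J₀`, and `J = e J₀`. -/
structure EX (G : Subgroup (Perm D)) (s : ℕ) (e : PT G → PT G) (J₀ J : D → D → PT G) : Prop
    extends BX G s where
  reach : Reach G e
  idem : ∀ t, e (e t) = e t
  min : ∀ φ, Reach G φ → PP G s (fun t => e (φ t)) = PP G s e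
  inv₀ : ∀ g ∈ G, ∀ h ∈ G, ∀ x b, J₀ (g x) (h b) = J₀ x b
  leg₀ : LegM G J₀
  hJ : ∀ x b, J x b = e (J₀ x b)

/-- States of the process of making rows far. -/
def State (G : Subgroup (Perm D)) (s : ℕ) (e : PT G → PT G) (J : D → D → PT G) (k : ℕ) : Prop :=
  ∃ A₀ : Finset D, ∀ A : Finset D, ∃ h ∈ G, ∃ b : Fin k → D, Function.Injective b ∧
    ∃ T : Finset D,
      (∀ i, ∀ x ∈ A, ∀ g ∈ G, g x ∈ A → tp G (b i) (h (g x)) = tp G (b i) (h x)) ∧
      (∀ g ∈ G, (∀ a ∈ A₀, g a ∈ A) →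
        ¬ Unk G s J e (Finset.univ.image b ∪ T) ((A₀.image g).image h)) ∧
      (∀ F ⊆ Finset.univ.image b ∪ T, ¬ Unk G s J e F (A.image h) → ∀ i, b i ∈ F)

end Pool.Agent.MP_f99268_lc
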