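import Pool.Agent.Lib.MP_f99268_lc.Defs

/-!
# Finitely bounded structures
-/

namespace Pool.Agent.MP_f99268_lc

variable {ι : Type} {ar : ι → ℕ} {D : Type}

/-- `Δ` is finitely bounded: there are finitely many finite structures `F 0, ..., F (k - 1)` such
that a finite structure embeds into `Δ` if and only if no `F i` embeds into it. -/
def FinitelyBounded (Δ : Str ι ar D) : Prop :=
  ∃ (k : ℕ) (n : Fin k → ℕ) (F : (i : Fin k) → Str ι ar (Fin (n i))),
    ∀ (M : Type) (_ : Finite M) (m : Str ι ar M),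
      (∃ f : M → D, IsEmb m Δ f) ↔ ∀ i, ¬ ∃ f : Fin (n i) → M, IsEmb (F i) m f

end Pool.Agent.MP_f99268_lc
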