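import Pool.Agent.Lib.MP_f99268_lc_W.Ctx

/-!
# Ramsey for colourings of tuples
-/

namespace Pool.Agent.MP_f99268_lc

open Equiv Classical

variable {D : Type} {G : Subgroup (Perm D)}

/-- Colourings of `m`-tuples can be made invariant, inside a finite set that does not depend on
the colouring. (As `canon_finite` in Lib/MP_f99268_lc/Ramsey.lean: `(hR.const c).of_bool κ'` with
`κ' = (Fin m → {x // x ∈ X}) → κ`, for `A := X` and `B := X ∪` the images of `X` under the
representatives `gt` of the traces on `X`.) -/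
theorem ram (hR : FR G Bool) (c X : Finset D) (κ : Type) [Finite κ] (m : ℕ) :
    ∃ C : Finset D, ∀ χ : (Fin m → D) → κ, ∃ k ∈ st G c, (∀ x ∈ X, k x ∈ C) ∧
      ∀ x y : Fin m → D, (∀ i, x i ∈ X) → (∀ i, y i ∈ X) →
        (∃ g ∈ st G c, ∀ i, g (x i) = y i) →
        χ (fun i => k (x i)) = χ (fun i => k (y i)) := by
  let tr : Perm D → Finset (D × D) := fun g => (X ×ˢ X).filter (fun ab => g ab.1 = ab.2)
  let gt : Finset (D × D) → Perm D := fun t =>
    if hex : ∃ g ∈ st G c, tr g = t then hex.choose else 1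
  have hgt : ∀ g ∈ st G c, gt (tr g) ∈ st G c ∧ tr (gt (tr g)) = tr g := by
    intro g hg
    have hex : ∃ g' ∈ st G c, tr g' = tr g := ⟨g, hg, rfl⟩
    have : gt (tr g) = hex.choose := dif_pos hex
    rw [this]
    exact hex.choose_spec
  let B : Finset D := X ∪ ((X ×ˢ X).powerset).biUnion (fun t => X.image (gt t))
  obtain ⟨C, hC⟩ := (hR.const c).of_bool ((Fin m → {x // x ∈ X}) → κ) X B
  refine ⟨C, fun χ => ?_⟩
  obtain ⟨h, hh, hB, hχ⟩ := hC (fun φ t => χ (fun i => φ (t i)))
  refine ⟨h, hh, fun x hx => hB x (Finset.mem_union_left _ hx), ?_⟩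
  rintro x y hx hy ⟨g, hg, hgxy⟩
  have hg' := hgt g hg
  have hgxy' : ∀ i, gt (tr g) (x i) = y i := by
    intro i
    have h1 : ((x i, y i) : D × D) ∈ tr g := by
      simp only [tr, Finset.mem_filter, Finset.mem_product]
      exact ⟨⟨hx i, hy i⟩, hgxy i⟩
    rw [← hg'.2] at h1
    simp only [tr, Finset.mem_filter, Finset.mem_product] at h1
    exact h1.2
  have e := hχ h hh (h * gt (tr g)) (Subgroup.mul_mem _ hh hg'.1)
    (fun a ha => ⟨a, Finset.mem_union_left _ ha, rfl⟩)
    (fun a ha => ⟨gt (tr g) a, Finset.mem_union_right _ (by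
      rw [Finset.mem_biUnion]
      refine ⟨tr g, ?_, Finset.mem_image_of_mem _ ha⟩
      rw [Finset.mem_powerset]
      exact Finset.filter_subset _ _), rfl⟩)
  have e1 := congrFun e (fun i => ⟨x i, hx i⟩)
  have e2 : (fun i => h (y i)) = fun i => (h * gt (tr g)) (x i) := by
    funext i
    rw [Perm.mul_apply, hgxy']
  rw [e2]
  exact e1

end Pool.Agent.MP_f99268_lc
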