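import Pool.Agent.Lib.MP_f99268_lc_W.ReachA
import Pool.Agent.Lib.MP_f99268_lc_W.RamL

/-!
# Invariant matrices as limits
-/

namespace Pool.Agent.MP_f99268_lc

open Equiv Classical

variable {D : Type} {G : Subgroup (Perm D)} {s : ℕ}

/-- An invariant legal matrix, from the matrices of arbitrary elements `r n` of `G` on an
exhaustion `A n`; `K n` is a finite colouring of the `s`-tuples.
(For every `m` let `C` be the set of `ram` for `c`, `A m`, `s`-tuples, colours `PT G × κ`; choose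
`n` with `C ⊆ A n` and apply `ram` to `χ z = (tp G (r n (z 0)) (z 1), K n z)`, where `4 ≤ s`, get
`k m`, `n m`. The matrix `tp G (r n (k x)) (k b)`, `x, b ∈ A m`, is invariant under `st G c` (pad
pairs to `s`-tuples). There are finitely many orbits of pairs over `c` (`Olig.fin`), so for large
`m` it is one of finitely many functions of the orbit of `(x, b)`; take one, `M`, that occurs for
infinitely many `m`. Legality: `(k)⁻¹ (r n) k` realises `M` on `A m`.) -/
theorem BX.matrix [Countable D] (hX : BX G s) (c : Finset D) (κ : Type) [Finite κ]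
    (A : ℕ → Finset D) (hA : ∀ n, A n ⊆ A (n + 1)) (hA' : ∀ S : Finset D, ∃ n, S ⊆ A n)
    (r : ℕ → Perm D) (hr : ∀ n, r n ∈ G) (K : ℕ → (Fin s → D) → κ) :
    ∃ M : D → D → PT G, LegM G M ∧
      (∀ g ∈ st G c, ∀ x b, M (g x) (g b) = M x b) ∧
      ∀ X : Finset D, ∃ n, ∃ k ∈ st G c, (∀ x ∈ X, k x ∈ A n) ∧
        (∀ x ∈ X, ∀ b ∈ X, tp G (r n (k x)) (k b) = M x b) ∧
        ∀ x y : Fin s → D, (∀ i, x i ∈ X) → (∀ i, y i ∈ X) →
          (∃ g ∈ st G c, ∀ i, g (x i) = y i) →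
          K n (fun i => k (x i)) = K n (fun i => k (y i)) := by
  have hfin : Finite (PT G) := finite_PT hX.olig
  have hs : 4 ≤ s := hX.four
  have hmono : ∀ m n, m ≤ n → A m ⊆ A n := by
    intro m n hmn
    induction n, hmn using Nat.le_induction with
    | base => exact subset_rfl
    | succ n _ ih => exact ih.trans (hA n)
  let i0 : Fin s := ⟨0, by omega⟩
  let i1 : Fin s := ⟨1, by omega⟩
  have hi : i1 ≠ i0 := by
    intro h
    have := congrArg Fin.val h
    simp only [i0, i1] at this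
    omega
  have h1 : ∀ m, ∃ n, ∃ k ∈ st G c, (∀ x ∈ A m, k x ∈ A n) ∧
      ∀ x y : Fin s → D, (∀ i, x i ∈ A m) → (∀ i, y i ∈ A m) →
        (∃ g ∈ st G c, ∀ i, g (x i) = y i) →
        tp G (r n (k (x i0))) (k (x i1)) = tp G (r n (k (y i0))) (k (y i1)) ∧
        K n (fun i => k (x i)) = K n (fun i => k (y i)) := by
    intro m
    obtain ⟨C, hC⟩ := ram hX.ramsey c (A m) (PT G × κ) s
    obtain ⟨n, hn⟩ := hA' C
    obtain ⟨k, hk, hkC, hχ⟩ := hC (fun z => (tp G (r n (z i0)) (z i1), K n z))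
    refine ⟨n, k, hk, fun x hx => hn (hkC x hx), fun x y hx hy hxy => ?_⟩
    have h := hχ x y hx hy hxy
    exact ⟨congrArg Prod.fst h, congrArg Prod.snd h⟩
  choose ν k hk hkA hχ using h1
  have h2 : ∀ m x b x' b', x ∈ A m → b ∈ A m → x' ∈ A m → b' ∈ A m →
      (∃ g ∈ st G c, g x = x' ∧ g b = b') →
      tp G (r (ν m) (k m x)) (k m b) = tp G (r (ν m) (k m x')) (k m b') := by
    rintro m x b x' b' hx hb hx' hb' ⟨g, hg, h1, h2⟩
    have h3 := (hχ m (fun i => if i = i0 then x else b) (fun i => if i = i0 then x' else b')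
      (fun i => by split_ifs <;> assumption) (fun i => by split_ifs <;> assumption)
      ⟨g, hg, fun i => by split_ifs <;> assumption⟩).1
    simp only [if_true, if_neg hi] at h3
    exact h3
  obtain ⟨T, hT⟩ := hX.olig.fin c 2
  obtain ⟨m0, hm0⟩ := hA' (T.biUnion fun t => {t 0, t 1})
  have hTA : ∀ t ∈ T, t 0 ∈ A m0 ∧ t 1 ∈ A m0 := by
    intro t ht
    constructor
    · exact hm0 (Finset.mem_biUnion.2 ⟨t, ht, by simp⟩)
    · exact hm0 (Finset.mem_biUnion.2 ⟨t, ht, by simp⟩)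
  let f : ℕ → ({t // t ∈ T} → PT G) := fun m t => tp G (r (ν m) (k m (t.1 0))) (k m (t.1 1))
  obtain ⟨F, hF⟩ := Finite.exists_infinite_fiber f
  have h5 : ∀ S : Finset D, ∃ m, m0 ≤ m ∧ S ⊆ A m ∧ f m = F := by
    intro S
    obtain ⟨n, hn⟩ := hA' S
    have hinf : (f ⁻¹' {F}).Infinite := Set.infinite_coe_iff.1 hF
    obtain ⟨m, hm, hN⟩ := hinf.exists_gt (max m0 n)
    exact ⟨m, (le_max_left m0 n).trans hN.le,
      hn.trans (hmono n m ((le_max_right m0 n).trans hN.le)), hm⟩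
  choose g hg hgT using fun p : D × D => hT ![p.1, p.2]
  let M : D → D → PT G := fun x b => F ⟨_, hgT (x, b)⟩
  have h4 : ∀ m, m0 ≤ m → f m = F → ∀ x ∈ A m, ∀ b ∈ A m,
      tp G (r (ν m) (k m x)) (k m b) = M x b := by
    intro m hm hfm x hx b hb
    have hA0 := hTA _ (hgT (x, b))
    have e : M x b = f m ⟨_, hgT (x, b)⟩ := by
      rw [hfm]
    rw [e]
    exact h2 m x b _ _ hx hb (hmono m0 m hm hA0.1) (hmono m0 m hm hA0.2)
      ⟨g (x, b), hg (x, b), rfl, rfl⟩
  refine ⟨M, fun X B => ?_, fun h hh x b => ?_, fun X => ?_⟩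
  · obtain ⟨m, hm, hS, hfm⟩ := h5 (X ∪ B)
    have hkG : k m ∈ G := st_le (hk m)
    refine ⟨(k m)⁻¹ * r (ν m) * k m, G.mul_mem (G.mul_mem (G.inv_mem hkG) (hr _)) hkG,
      fun x hx b hb => ?_⟩
    rw [← h4 m hm hfm x (hS (Finset.mem_union_left _ hx)) b (hS (Finset.mem_union_right _ hb)),
      ← tp_map hkG]
    have e : k m (((k m)⁻¹ * r (ν m) * k m) x) = r (ν m) (k m x) :=
      (k m).apply_symm_apply _
    rw [e]
  · obtain ⟨m, hm, hS, hfm⟩ := h5 {x, b, h x, h b}
    have hx : x ∈ A m := hS (by simp)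
    have hb : b ∈ A m := hS (by simp)
    have hx' : h x ∈ A m := hS (by simp)
    have hb' : h b ∈ A m := hS (by simp)
    rw [← h4 m hm hfm _ hx' _ hb', ← h4 m hm hfm _ hx _ hb]
    exact (h2 m x b _ _ hx hb hx' hb' ⟨h, hh, rfl, rfl⟩).symm
  · obtain ⟨m, hm, hS, hfm⟩ := h5 X
    exact ⟨ν m, k m, hk m, fun x hx => hkA m x (hS hx),
      fun x hx b hb => h4 m hm hfm x (hS hx) b (hS hb),
      fun x y hx hy hxy => (hχ m x y (fun i => hS (hx i)) (fun i => hS (hy i)) hxy).2⟩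

end Pool.Agent.MP_f99268_lc
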