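import Pool.Agent.Lib.MP_f99268_lc_W.ReachA

/-!
# Conflicts are local
-/

namespace Pool.Agent.MP_f99268_lc

open Equiv Classical

variable {D : Type} {G : Subgroup (Perm D)} {s : ℕ} {e : PT G → PT G} {J₀ J : D → D → PT G}

theorem Ok.anti {S S' : Finset D} {x : Fin s → D} {π : Pt G s} (h : Ok G s J S x π)
    (hS : S' ⊆ S) : Ok G s J S' x π := by
  obtain ⟨b, h1, h2, h3⟩ := h
  exact ⟨b, h1, fun a ha => h2 a (hS ha), h3⟩

theorem Unk.anti {S S' Y Y' : Finset D} (h : Unk G s J e S Y) (hS : S' ⊆ S) (hY : Y' ⊆ Y) :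
    Unk G s J e S' Y' :=
  fun x hx π hπ h1 => (h x (fun i => hY (hx i)) π hπ h1).anti hS

/-- `J` is invariant under `G` on both sides. -/
theorem EX.inv (hE : EX G s e J₀ J) {g h : Perm D} (hg : g ∈ G) (hh : h ∈ G) (x b : D) :
    J (g x) (h b) = J x b := by
  rw [hE.hJ, hE.hJ, hE.inv₀ g hg h hh]

theorem EX.leg (hE : EX G s e J₀ J) : LegM G J := by
  intro X B
  obtain ⟨g, hg, h1⟩ := hE.leg₀ X B
  obtain ⟨g', hg', h2⟩ := hE.reach.1 (X.image g) B
  refine ⟨g' * g, G.mul_mem hg' hg, fun x hx b hb => ?_⟩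
  have h3 := h2 _ (Finset.mem_image_of_mem _ hx) b hb
  simp only at h3
  rw [Perm.mul_apply, h3, h1 x hx b hb, hE.hJ]

theorem EX.eJ (hE : EX G s e J₀ J) (x b : D) : e (J x b) = J x b := by
  rw [hE.hJ, hE.idem]

private noncomputable def OkL_sw (t : PT G) : PT G :=
  Quotient.liftOn t (fun p => tp G p.2 p.1) (by
    rintro p q ⟨g, hg, h1, h2⟩
    exact tp_eq.2 ⟨g, hg, h2, h1⟩)

private theorem OkL_sw_eq {x y : D} {t : PT G} (h : tp G x y = t) : tp G y x = OkL_sw t := by
  subst h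
  rfl

/-- The amalgamation property of rows and columns. -/
private theorem OkL_net (hX : BX G s) {R C : Type} [Finite R] [Finite C] (r : R → D)
    (Q : C → C → PT G) (K : R → C → PT G)
    (h : ∀ (T₁ : Finset R) (T₂ : Finset C), T₁.card + T₂.card ≤ s →
      ∃ (f₁ : R → D) (f₂ : C → D),
        (∀ x ∈ T₁, ∀ y ∈ T₁, tp G (f₁ x) (f₁ y) = tp G (r x) (r y)) ∧
        (∀ x ∈ T₂, ∀ y ∈ T₂, tp G (f₂ x) (f₂ y) = Q x y) ∧
        ∀ x ∈ T₁, ∀ y ∈ T₂, tp G (f₁ x) (f₂ y) = K x y) :
    ∃ b : C → D, (∀ x y, tp G (b x) (b y) = Q x y) ∧ ∀ x y, tp G (r x) (b y) = K x y := by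
  obtain ⟨f, hf⟩ := hX.net (R ⊕ C) (fun m m' => Sum.elim
      (fun x => Sum.elim (fun y => tp G (r x) (r y)) (fun y => K x y) m')
      (fun x => Sum.elim (fun y => OkL_sw (K y x)) (fun y => Q x y) m') m) (by
    intro T hT
    obtain ⟨f₁, f₂, h1, h2, h3⟩ := h T.toLeft T.toRight
      (by rw [Finset.card_toLeft_add_card_toRight]; exact hT)
    refine ⟨Sum.elim f₁ f₂, ?_⟩
    rintro (x | x) hx (y | y) hy
    · exact h1 x (Finset.mem_toLeft.2 hx) y (Finset.mem_toLeft.2 hy)
    · exact h3 x (Finset.mem_toLeft.2 hx) y (Finset.mem_toRight.2 hy)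
    · exact OkL_sw_eq (h3 y (Finset.mem_toLeft.2 hy) x (Finset.mem_toRight.2 hx))
    · exact h2 x (Finset.mem_toRight.2 hx) y (Finset.mem_toRight.2 hy))
  obtain ⟨g, hg, h1⟩ := hX.bin R (fun x => f (Sum.inl x)) r
    (fun x y => hf (Sum.inl x) (Sum.inl y))
  refine ⟨fun y => g (f (Sum.inr y)), fun x y => ?_, fun x y => ?_⟩
  · rw [tp_map hg]
    exact hf (Sum.inr x) (Sum.inr y)
  · rw [← h1 x, tp_map hg]
    exact hf (Sum.inl x) (Sum.inr y)

/-- The value of `J` depends only on the orbit of the column. -/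
private theorem OkL_col (hE : EX G s e J₀ J) (a : D) {b b' : D}
    (h : tp G b b = tp G b' b') : J a b = J a b' := by
  obtain ⟨g, hg, h1, _⟩ := tp_eq.1 h
  rw [← h1]
  exact (hE.inv G.one_mem hg a b).symm

private theorem OkL_list (A : Finset D) (hA : A.Nonempty) (hs : A.card ≤ s) :
    ∃ x : Fin s → D, (∀ i, x i ∈ A) ∧ ∀ a ∈ A, ∃ i, x i = a := by
  have hne : Nonempty {a // a ∈ A} := ⟨⟨hA.choose, hA.choose_spec⟩⟩
  obtain ⟨φ⟩ := Function.Embedding.nonempty_of_card_le
    (α := {a // a ∈ A}) (β := Fin s) (by rw [Fintype.card_coe, Fintype.card_fin]; exact hs)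
  refine ⟨fun i => (Function.invFun φ i).1, fun i => (Function.invFun φ i).2, fun a ha => ?_⟩
  obtain ⟨i, hi⟩ := Function.invFun_surjective φ.injective ⟨a, ha⟩
  exact ⟨i, congrArg Subtype.val hi⟩

private theorem OkL_fwd (hE : EX G s e J₀ J) {S : Finset D} {x : Fin s → D} {π : Pt G s}
    {g : Perm D} (hg : g ∈ G) (h : Ok G s J S x π) :
    Ok G s J (S.image g) (fun i => g (x i)) π := by
  obtain ⟨b, h1, h2, h3⟩ := h
  refine ⟨fun i => g (b i), fun i j => ?_, fun a ha j => ?_, fun i j => ?_⟩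
  · rw [tp_map hg]
    exact h1 i j
  · obtain ⟨a', ha', rfl⟩ := Finset.mem_image.1 ha
    rw [tp_map hg, hE.inv hg hg]
    exact h2 a' ha' j
  · rw [tp_map hg]
    exact h3 i j

theorem EX.ok_map (hE : EX G s e J₀ J) {S : Finset D} {x : Fin s → D} {π : Pt G s} {g : Perm D}
    (hg : g ∈ G) : Ok G s J (S.image g) (fun i => g (x i)) π ↔ Ok G s J S x π := by
  constructor
  · intro h
    have h1 := OkL_fwd hE (G.inv_mem hg) h
    rw [Finset.image_image] at h1
    have e1 : ((g⁻¹ : Perm D) : D → D) ∘ g = id := by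
      funext x
      simp
    have e2 : (fun i => (g⁻¹ : Perm D) (g (x i))) = x := by
      funext i
      simp
    rw [e1, Finset.image_id, e2] at h1
    exact h1
  · exact OkL_fwd hE hg

theorem EX.unk_map (hE : EX G s e J₀ J) {S Y : Finset D} {g : Perm D} (hg : g ∈ G) :
    Unk G s J e (S.image g) (Y.image g) ↔ Unk G s J e S Y := by
  constructor
  · intro h x hx π hπ h1
    rw [← hE.ok_map hg]
    exact h _ (fun i => Finset.mem_image_of_mem _ (hx i)) π hπ
      (fun i j => by rw [tp_map hg]; exact h1 i j)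
  · intro h x hx π hπ h1
    choose y hy hyx using fun i => Finset.mem_image.1 (hx i)
    have e1 : x = fun i => g (y i) := by
      funext i
      exact (hyx i).symm
    rw [e1, hE.ok_map hg]
    refine h y hy π hπ (fun i j => ?_)
    rw [← tp_map hg, hyx, hyx]
    exact h1 i j

/-- A conflict contains a conflict with at most `s` rows. (`hE.net` for the index set
`M = {a // a ∈ S} ⊕ Fin s ⊕ Fin s`, rows `a`, rows `x i`, columns `j`, with labels `tp G a a'`,
`tp G a (x i)`, `π.2.1 j j'`, `π.2.2 i j` and `J a (column j)`; for the last one use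
`J a d` for some `d` with `tp G d d = π.2.1 j j` (exists by the hypothesis for `F = ∅`). For `T` of
size at most `s` use the hypothesis for `F` = the elements of `S` in `T`. Finally move the rows back
by `hE.bin`.) -/
theorem EX.ok_local (hE : EX G s e J₀ J) {S : Finset D} {x : Fin s → D} {π : Pt G s}
    (h : ∀ F ⊆ S, F.card ≤ s → Ok G s J F x π) : Ok G s J S x π := by
  obtain ⟨d, hd, _, _⟩ := h ∅ (Finset.empty_subset _) (by rw [Finset.card_empty]; omega)
  obtain ⟨b, h1, h2⟩ := OkL_net hE.toBX (R := {a // a ∈ S} ⊕ Fin s) (C := Fin s)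
    (Sum.elim (fun a => a.1) x) π.2.1
    (fun m j => Sum.elim (fun a => J a.1 (d j)) (fun i => π.2.2 i j) m) (by
      intro T₁ T₂ hT
      obtain ⟨b, h1, h2, h3⟩ := h (T₁.toLeft.image Subtype.val) (by
          intro a ha
          obtain ⟨a', _, rfl⟩ := Finset.mem_image.1 ha
          exact a'.2) (by
          refine Finset.card_image_le.trans ?_
          have h4 := Finset.card_toLeft_add_card_toRight (u := T₁)
          omega)
      refine ⟨Sum.elim (fun a => a.1) x, b, fun _ _ _ _ => rfl, fun i _ j _ => h1 i j, ?_⟩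
      rintro (a | i) hm j _
      · have h4 := h2 a.1 (Finset.mem_image_of_mem _ (Finset.mem_toLeft.2 hm)) j
        exact h4.trans (OkL_col hE a.1 ((h1 j j).trans (hd j j).symm))
      · exact h3 i j)
  refine ⟨b, h1, fun a ha j => ?_, fun i j => h2 (Sum.inr i) j⟩
  exact (h2 (Sum.inl ⟨a, ha⟩) j).trans (OkL_col hE a ((hd j j).trans (h1 j j).symm))

/-- (LOC) Rows `Y` that are not killed can be exact while the rows `S` are far. (`hE.net` for the
index set `M = {y // y ∈ S ∪ Y} ⊕ {b // b ∈ B}`, cross labels `J y b` if `y ∈ S`, and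
`e (tp G y b)` otherwise. For `T` of size at most `s`: if it has no rows in `Y` use `hE.leg`, if it
has no columns use the identity, otherwise list its rows in `Y` as `x : Fin s → D` and its columns
as `b : Fin s → D` (with repetitions) and use `h` for `x` and the pattern of `x`, `b`. Note that for
`y ∈ S ∩ Y` both labels agree by `h`. At the end move the columns to `B` and the rows back by
`hE.bin`.) -/
theorem EX.loc (hE : EX G s e J₀ J) {S Y : Finset D} (h : Unk G s J e S Y) (B : Finset D) :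
    ∃ γ ∈ G, (∀ a ∈ S, ∀ b ∈ B, tp G (γ a) b = J a b) ∧
      ∀ y ∈ Y, ∀ b ∈ B, tp G (γ y) b = e (tp G y b) := by
  have hs : 0 < s := lt_of_lt_of_le (by omega) hE.four
  have hSY : ∀ y ∈ Y, y ∈ S → ∀ b, J y b = e (tp G y b) := by
    intro y hy hyS b
    obtain ⟨b', h1, h2, h3⟩ := h (fun _ => y) (fun _ => hy)
      (fun _ _ => tp G y y, fun _ _ => tp G b b, fun _ _ => e (tp G y b))
      ⟨fun _ => y, fun _ => b, fun _ _ => rfl, fun _ _ => rfl, fun _ _ => rfl⟩
      (fun _ _ => rfl)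
    have h4 := h2 y hyS ⟨0, hs⟩
    have h5 := h3 ⟨0, hs⟩ ⟨0, hs⟩
    rw [← OkL_col hE y (h1 ⟨0, hs⟩ ⟨0, hs⟩), ← h4]
    exact h5
  obtain ⟨c, h1, h2⟩ := OkL_net hE.toBX (R := {y // y ∈ S ∪ Y}) (C := {b // b ∈ B})
    (fun y => y.1) (fun b b' => tp G b.1 b'.1)
    (fun y b => if y.1 ∈ S then J y.1 b.1 else e (tp G y.1 b.1)) (by
      intro T₁ T₂ hT
      by_cases hT₂ : T₂ = ∅
      · subst hT₂
        exact ⟨fun y => y.1, fun b => b.1, fun _ _ _ _ => rfl, fun _ _ _ _ => rfl,
          fun _ _ b hb => absurd hb (Finset.notMem_empty b)⟩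
      by_cases hT₁ : ∀ y ∈ T₁, y.1 ∉ Y
      · obtain ⟨g, hg, h1⟩ := hE.leg S B
        refine ⟨fun y => g y.1, fun b => b.1, fun x _ y _ => tp_map hg _ _,
          fun _ _ _ _ => rfl, fun y hy b _ => ?_⟩
        have hyS : y.1 ∈ S := (Finset.mem_union.1 y.2).resolve_right (hT₁ y hy)
        simp only
        rw [if_pos hyS]
        exact h1 y.1 hyS b.1 b.2
      · push Not at hT₁
        obtain ⟨y₀, hy₀, hy₀'⟩ := hT₁
        have hc2 : 0 < T₂.card := Finset.card_pos.2 (Finset.nonempty_of_ne_empty hT₂)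
        have hc1 : 0 < T₁.card := Finset.card_pos.2 ⟨y₀, hy₀⟩
        obtain ⟨x, hx1, hx2⟩ := OkL_list (s := s) ((T₁.filter (fun y => y.1 ∈ Y)).image
          Subtype.val) ⟨y₀.1, Finset.mem_image_of_mem _ (Finset.mem_filter.2 ⟨hy₀, hy₀'⟩)⟩
          (Finset.card_image_le.trans ((Finset.card_filter_le _ _).trans (by omega)))
        obtain ⟨b, hb1, hb2⟩ := OkL_list (s := s) (T₂.image Subtype.val)
          ((Finset.nonempty_of_ne_empty hT₂).image _) (Finset.card_image_le.trans (by omega))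
        obtain ⟨b', h1, h2, h3⟩ := h x (fun i => by
            obtain ⟨y, hy, hyx⟩ := Finset.mem_image.1 (hx1 i)
            rw [← hyx]
            exact (Finset.mem_filter.1 hy).2)
          (fun i j => tp G (x i) (x j), fun i j => tp G (b i) (b j),
            fun i j => e (tp G (x i) (b j)))
          ⟨x, b, fun _ _ => rfl, fun _ _ => rfl, fun _ _ => rfl⟩ (fun _ _ => rfl)
        simp only at h1 h3
        have hk : ∀ u : {b // b ∈ B}, ∃ k : Fin s, u ∈ T₂ → b k = u.1 := by
          intro u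
          by_cases hu : u ∈ T₂
          · obtain ⟨k, hk⟩ := hb2 u.1 (Finset.mem_image_of_mem _ hu)
            exact ⟨k, fun _ => hk⟩
          · exact ⟨⟨0, hs⟩, fun h => absurd h hu⟩
        choose k hk using hk
        refine ⟨fun y => y.1, fun u => b' (k u), fun _ _ _ _ => rfl, fun u hu v hv => ?_,
          fun y hy u hu => ?_⟩
        · rw [h1, hk u hu, hk v hv]
        · simp only
          split_ifs with hyS
          · rw [h2 y.1 hyS]
            refine OkL_col hE y.1 ?_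
            rw [h1, hk u hu]
          · have hyY : y.1 ∈ Y := (Finset.mem_union.1 y.2).resolve_left hyS
            obtain ⟨i, hi⟩ := hx2 y.1 (Finset.mem_image_of_mem _
              (Finset.mem_filter.2 ⟨hy, hyY⟩))
            rw [← hi, h3, hk u hu])
  obtain ⟨g, hg, h3⟩ := hE.bin {b // b ∈ B} c (fun b => b.1) h1
  have key : ∀ (y : {y // y ∈ S ∪ Y}) (b : {b // b ∈ B}),
      tp G (g y.1) b.1 = if y.1 ∈ S then J y.1 b.1 else e (tp G y.1 b.1) := by
    intro y b
    have h4 := h2 y b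
    rw [← tp_map hg, h3 b] at h4
    exact h4
  refine ⟨g, hg, fun a ha b hb => ?_, fun y hy b hb => ?_⟩
  · have h4 := key ⟨a, Finset.mem_union_left _ ha⟩ ⟨b, hb⟩
    simp only at h4
    rwa [if_pos ha] at h4
  · have h4 := key ⟨y, Finset.mem_union_right _ hy⟩ ⟨b, hb⟩
    simp only at h4
    by_cases hyS : y ∈ S
    · rw [if_pos hyS, hSY y hy hyS b] at h4
      exact h4
    · rwa [if_neg hyS] at h4

end Pool.Agent.MP_f99268_lc
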