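import Pool.Agent.Lib.MP_f99268_lc_W.ReachB
import Pool.Agent.Lib.MP_f99268_lc_W.OkL
import Pool.Agent.Lib.MP_f99268_lc_W.MatL
import Pool.Agent.Lib.MP_f99268_lc_U.Path

/-!
# The dichotomy: all regions are killed, or none
-/

namespace Pool.Agent.MP_f99268_lc

open Equiv Classical

variable {D : Type} {G : Subgroup (Perm D)} {s : ℕ} {e : PT G → PT G} {J₀ J : D → D → PT G}

private theorem DichL_tp_u {u : D → D} (hu : Emb G u) (x y : D) :
    tp G (u x) (u y) = tp G x y := by
  obtain ⟨g, hg, h⟩ := hu {x, y}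
  rw [h x (by simp), h y (by simp)]
  exact tp_map hg x y

private theorem DichL_inR {c : Finset D} {u : D → D} (huc : CanU G ∅ c u) {k : Perm D}
    (hk : k ∈ st G c) {x : D} (hx : InR G c u x) : InR G c u (k x) := by
  intro a ha
  have hk' := mem_st.1 hk
  have h1 : tp G a (k x) = tp G a x := by
    have h2 := tp_map hk'.1 a x
    rwa [hk'.2 a ha] at h2
  obtain ⟨g, hg, h3⟩ := huc 1 (fun _ => x) (fun _ => k x)
    ⟨k, by rw [st_empty]; exact hk'.1, fun _ => rfl⟩
  have hg' := mem_st.1 hg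
  have h4 : tp G a (u (k x)) = tp G a (u x) := by
    have h5 := tp_map hg'.1 a (u x)
    rw [hg'.2 a ha] at h5
    rw [← h5]
    congr 1
    exact (h3 0).symm
  rw [h1, h4]
  exact hx a ha

/-- The labels of an invariant matrix between the points of a region. -/
private theorem DichL_phi (hX : BX G s) {c : Finset D} {u : D → D} (hu : Emb G u)
    (huc : CanU G ∅ c u) {M : D → D → PT G} (hM : ∀ g ∈ st G c, ∀ x b, M (g x) (g b) = M x b) :
    ∃ φ : PT G → PT G, (∀ x b, φ (tp G x b) = M (u x) (u b)) ∧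
      ∀ x b, InR G c u x → InR G c u b → M x b = φ (tp G x b) := by
  have hinv : ∀ x b x' b', tp G x b = tp G x' b' → M (u x) (u b) = M (u x') (u b') := by
    intro x b x' b' h
    obtain ⟨g, hg, h1, h2⟩ := tp_eq.1 h
    obtain ⟨g', hg', h3⟩ := huc 2 ![x, b] ![x', b'] ⟨g, by rwa [st_empty], by
      intro i
      fin_cases i
      · exact h1
      · exact h2⟩
    have h4 : g' (u x) = u x' := h3 0
    have h5 : g' (u b) = u b' := h3 1
    rw [← h4, ← h5, hM g' hg']
  let φ : PT G → PT G := fun t => M (u (Quotient.out t).1) (u (Quotient.out t).2)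
  have hφ : ∀ x b, φ (tp G x b) = M (u x) (u b) := by
    intro x b
    apply hinv
    have h : (Quotient.mk (prS G) (Quotient.out (tp G x b)) : PT G) = tp G x b :=
      Quotient.out_eq _
    exact h
  refine ⟨φ, hφ, ?_⟩
  intro x b hx hb
  obtain ⟨g, hg, h⟩ := hX.bin ({a // a ∈ c} ⊕ Bool)
    (Sum.elim (fun a => a.1) (fun i => if i = true then u x else u b))
    (Sum.elim (fun a => a.1) (fun i => if i = true then x else b)) (by
      have hxb : ∀ i j : Bool, tp G (if i = true then u x else u b)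
          (if j = true then u x else u b) =
          tp G (if i = true then x else b) (if j = true then x else b) := by
        intro i j
        cases i <;> cases j <;> exact DichL_tp_u hu _ _
      have hc : ∀ (a : {a // a ∈ c}) (i : Bool), tp G a.1 (if i = true then u x else u b) =
          tp G a.1 (if i = true then x else b) := by
        intro a i
        cases i
        · exact (hb a.1 a.2).symm
        · exact (hx a.1 a.2).symm
      rintro (a | i) (a' | j)
      · rfl
      · exact hc a j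
      · exact tp_swap (hc a' i)
      · exact hxb i j)
  have hgc : g ∈ st G c := mem_st.2 ⟨hg, fun a ha => h (Sum.inl ⟨a, ha⟩)⟩
  have h1 : g (u x) = x := h (Sum.inr true)
  have h2 : g (u b) = b := h (Sum.inr false)
  rw [hφ, ← hM g hgc (u x) (u b), h1, h2]

/-- A tuple with the pattern `π` in the position `e φ` is not killed. -/
private theorem DichL_ok (hE : EX G s e J₀ J) {S : Finset D} {h k γ : Perm D} (hh : h ∈ G)
    (hk : k ∈ G) (hγ : γ ∈ G) {uQ : D → D} (hQ : Emb G uQ) {φ : PT G → PT G}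
    {x b : Fin s → D} {π : Pt G s}
    (h2 : ∀ i j, tp G (b i) (b j) = π.2.1 i j)
    (h3 : ∀ i j, e (φ (tp G (x i) (b j))) = π.2.2 i j)
    (h4 : ∀ a ∈ S, ∀ j, tp G (γ a) (h (k (uQ (b j)))) = J a (h (k (uQ (b j)))))
    (h5 : ∀ i j, tp G (γ (h (k (uQ (x i))))) (h (k (uQ (b j)))) = φ (tp G (x i) (b j))) :
    Ok G s J S (fun i => h (k (uQ (x i)))) π := by
  obtain ⟨ε, hε, h6⟩ := hE.reach.1
    (S.image γ ∪ Finset.univ.image fun i => γ (h (k (uQ (x i)))))
    (Finset.univ.image fun j => h (k (uQ (b j))))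
  simp only at h6
  have hεγ : (ε * γ)⁻¹ ∈ G := G.inv_mem (G.mul_mem hε hγ)
  have hback : ∀ y z, tp G y ((ε * γ)⁻¹ z) = tp G (ε (γ y)) z := by
    intro y z
    have h7 := tp_map (G.mul_mem hε hγ) y ((ε * γ)⁻¹ z)
    have h8 : (ε * γ : Perm D) ((ε * γ)⁻¹ z) = z := by simp
    rw [h8] at h7
    rw [← h7]
    rfl
  refine ⟨fun j => (ε * γ)⁻¹ (h (k (uQ (b j)))), fun i j => ?_, fun a ha j => ?_,
    fun i j => ?_⟩
  · rw [tp_map hεγ, tp_map hh, tp_map hk, DichL_tp_u hQ]
    exact h2 i j
  · rw [hback, h6 _ (Finset.mem_union_left _ (Finset.mem_image_of_mem _ ha)) _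
      (Finset.mem_image_of_mem _ (Finset.mem_univ j)), h4 a ha j, hE.eJ]
    have h8 := hE.inv (g := 1) (h := (ε * γ)⁻¹) G.one_mem hεγ a (h (k (uQ (b j))))
    rw [Perm.one_apply] at h8
    exact h8.symm
  · rw [hback, h6 _ (Finset.mem_union_right _ (Finset.mem_image_of_mem _ (Finset.mem_univ i))) _
      (Finset.mem_image_of_mem _ (Finset.mem_univ j)), h5 i j]
    exact h3 i j

/-- (DICH) If the part of a large finite set in one region over `c` is not killed by `S`, then some
copy of `X` in another region over `c` is not killed by `S`.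

Proof. Suppose not; for the sets `A n` of an exhaustion (`exists_exhaustion`) there are `h n`, `S n`
such that `S n` does not kill `h n (A n ∩ P)` but kills all `h n (g uQ X)`, `g ∈ st G c`,
`g uQ X ⊆ A n`. `EX.loc` with `B = (A n).image (h n)` gives `γ n`; put `r n = (h n)⁻¹ γ n (h n)`:
`tp (r n x) b = e (tp x b)` for `x ∈ A n ∩ P`, `b ∈ A n`. Let `K n z` be the set of all `π` with
`¬ Ok (S n) (h n ∘ z) π` (colours `Set (Pt G s)`, finite by `finite_PT`). Take `M` from
`BX.matrix`. `M x b = e (tp x b)` for `x` in the region of `uP`. Put `φ t = M (uQ x) (uQ b)` for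
`t = tp x b`; `BX.op` (invariance of `M` and `hE.bin` give `hMQ`): `φ` is reachable, so
`PP (e φ) = PP e` by `hE.min`. For every `π ∈ PP e` choose `x_π`, `b_π` with that pattern in `e φ`.
Apply the last clause of `BX.matrix` to the finite set `uQ X ∪ uQ x_π ∪ uQ b_π` (all `π`), get
`n`, `k`. For `π` the tuple `h n k uQ x_π` is Ok: the rows `ε γ n ..` where `ε` realises `e` over the
columns `h n k uQ b_π`; move back. By invariance of `K n` every `s`-tuple of `uQ X` that matches `π`
is Ok (it is in the `st G c`-orbit of `uQ x_π` by `hE.bin` and canonicity of `uQ`). So `k` is a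
counterexample. -/
theorem EX.dich [Countable D] (hE : EX G s e J₀ J) (c : Finset D) (uP uQ : D → D)
    (hP : Emb G uP) (hPc : CanU G ∅ c uP) (hQ : Emb G uQ) (hQc : CanU G ∅ c uQ)
    (X : Finset D) : ∃ B : Finset D, ∀ h ∈ G, ∀ S : Finset D,
      Unk G s J e S ((B.filter (InR G c uP)).image h) →
      ∃ g ∈ st G c, (∀ x ∈ X, g (uQ x) ∈ B) ∧
        Unk G s J e S (X.image fun x => h (g (uQ x))) := by
  by_contra hcon
  push Not at hcon
  obtain ⟨A, hA1, hA2⟩ := exists_exhaustion D
  choose h hh S hS1 hS2 using fun n => hcon (A n)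
  choose γ hγ hγ1 hγ2 using fun n => hE.loc (hS1 n) ((A n).image (h n))
  have hfin : Finite (PT G) := finite_PT hE.olig
  have hr : ∀ n, (h n)⁻¹ * γ n * h n ∈ G := fun n =>
    G.mul_mem (G.mul_mem (G.inv_mem (hh n)) (hγ n)) (hh n)
  have hrt : ∀ n x b, tp G (((h n)⁻¹ * γ n * h n : Perm D) x) b =
      tp G (γ n (h n x)) (h n b) := by
    intro n x b
    have h1 := tp_map (hh n) (((h n)⁻¹ * γ n * h n : Perm D) x) b
    rw [← h1]
    simp [Perm.mul_apply]
  obtain ⟨M, hM1, hM2, hM3⟩ := hE.toBX.matrix c (Set (Pt G s)) A hA1 hA2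
    (fun n => (h n)⁻¹ * γ n * h n) hr
    (fun n z => {π | ¬ Ok G s J (S n) (fun i => h n (z i)) π})
  have hMP : ∀ x b, InR G c uP x → M x b = e (tp G x b) := by
    intro x b hx
    obtain ⟨n, k, hk, h1, h2, -⟩ := hM3 {x, b}
    have hkG : k ∈ G := st_le hk
    have hxn := h1 x (by simp)
    have hbn := h1 b (by simp)
    rw [← h2 x (by simp) b (by simp), hrt, hγ2 n (h n (k x))
      (Finset.mem_image_of_mem _ (Finset.mem_filter.2 ⟨hxn, DichL_inR hPc hk hx⟩)) (h n (k b))
      (Finset.mem_image_of_mem _ hbn), tp_map (hh n), tp_map hkG]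
  obtain ⟨φ, hφ, hMQ⟩ := DichL_phi hE.toBX hQ hQc hM2
  have hreach : Reach G φ := BX.op hE.reach c uP uQ hP hPc hQ hQc M hM1 hMP hMQ
  have hmin := hE.min φ hreach
  have hpat : ∀ π : Pt G s, ∃ x b : Fin s → D, π ∈ PP G s e →
      (∀ i j, tp G (x i) (x j) = π.1 i j) ∧ (∀ i j, tp G (b i) (b j) = π.2.1 i j) ∧
      ∀ i j, e (φ (tp G (x i) (b j))) = π.2.2 i j := by
    intro π
    by_cases hπ : π ∈ PP G s e
    · rw [← hmin] at hπ
      obtain ⟨x, b, h1, h2, h3⟩ := hπ
      exact ⟨x, b, fun _ => ⟨h1, h2, h3⟩⟩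
    · by_cases hD : Nonempty D
      · obtain ⟨d⟩ := hD
        exact ⟨fun _ => d, fun _ => d, fun h => absurd h hπ⟩
      · exfalso
        rw [not_nonempty_iff] at hD
        have h4 := hE.four
        exact hS2 0 1 (st G c).one_mem (fun x _ => (hD.false x).elim)
          (fun x => (hD.false (x ⟨0, by omega⟩)).elim)
  choose xp bp hxb using hpat
  have hfin2 : Finite (Pt G s) := inferInstance
  have hft : Fintype (Pt G s) := Fintype.ofFinite _
  obtain ⟨n, k, hk, h1, h2, h3⟩ := hM3 (X.image uQ ∪ (Finset.univ : Finset (Pt G s)).biUnion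
    fun π => (Finset.univ.image fun i => uQ (xp π i)) ∪ (Finset.univ.image fun i => uQ (bp π i)))
  have hkG : k ∈ G := st_le hk
  have hmx : ∀ π i, uQ (xp π i) ∈ X.image uQ ∪ (Finset.univ : Finset (Pt G s)).biUnion
      fun π => (Finset.univ.image fun i => uQ (xp π i)) ∪
        (Finset.univ.image fun i => uQ (bp π i)) := by
    intro π i
    refine Finset.mem_union_right _ (Finset.mem_biUnion.2 ⟨π, Finset.mem_univ _, ?_⟩)
    exact Finset.mem_union_left _ (Finset.mem_image_of_mem _ (Finset.mem_univ i))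
  have hmb : ∀ π i, uQ (bp π i) ∈ X.image uQ ∪ (Finset.univ : Finset (Pt G s)).biUnion
      fun π => (Finset.univ.image fun i => uQ (xp π i)) ∪
        (Finset.univ.image fun i => uQ (bp π i)) := by
    intro π i
    refine Finset.mem_union_right _ (Finset.mem_biUnion.2 ⟨π, Finset.mem_univ _, ?_⟩)
    exact Finset.mem_union_right _ (Finset.mem_image_of_mem _ (Finset.mem_univ i))
  refine hS2 n k hk (fun x hx => h1 _ (Finset.mem_union_left _ (Finset.mem_image_of_mem _ hx))) ?_
  intro z hz π hπ hzπ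
  have hz' : ∀ i, ∃ x ∈ X, h n (k (uQ x)) = z i := fun i => Finset.mem_image.1 (hz i)
  choose x' hx' hxz using hz'
  obtain ⟨e1, e2, e3⟩ := hxb π hπ
  have e4 : ∀ i j, tp G (x' i) (x' j) = π.1 i j := by
    intro i j
    rw [← hzπ i j, ← hxz i, ← hxz j, tp_map (hh n), tp_map hkG, DichL_tp_u hQ]
  obtain ⟨g, hg, hgx⟩ := hE.bin (Fin s) (xp π) x' (fun i j => by rw [e1, e4])
  obtain ⟨g', hg', hgx'⟩ := hQc s (xp π) x' ⟨g, by rwa [st_empty], hgx⟩
  have e5 := h3 (fun i => uQ (xp π i)) (fun i => uQ (x' i)) (hmx π)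
    (fun i => Finset.mem_union_left _ (Finset.mem_image_of_mem _ (hx' i))) ⟨g', hg', hgx'⟩
  have e6 : Ok G s J (S n) (fun i => h n (k (uQ (xp π i)))) π := by
    refine DichL_ok hE (hh n) hkG (hγ n) hQ e2 e3 (fun a ha j => ?_) (fun i j => ?_)
    · exact hγ1 n a ha _ (Finset.mem_image_of_mem _ (h1 _ (hmb π j)))
    · rw [← hrt, h2 _ (hmx π i) _ (hmb π j), hφ]
  have e7 : (fun i => h n (k (uQ (x' i)))) = z := by
    funext i
    exact hxz i
  rw [← e7]
  by_contra hno
  have e8 : π ∈ {π | ¬ Ok G s J (S n) (fun i => h n (k (uQ (x' i)))) π} := hno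
  rw [← e5] at e8
  exact e8 e6

end Pool.Agent.MP_f99268_lc
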