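import Pool.Agent.Lib.MP_f99268_lc_W.RunL

/-!
# Reachable positions
-/

namespace Pool.Agent.MP_f99268_lc

open Equiv Classical

variable {D : Type} {G : Subgroup (Perm D)} {s : ℕ}

/-- Rows with the same labels over `B` are conjugate over `B`. -/
theorem BX.move (hX : BX G s) {α : Type} [Finite α] (B : Finset D) (x y : α → D)
    (h1 : ∀ a b, tp G (x a) (x b) = tp G (y a) (y b))
    (h2 : ∀ a, ∀ b ∈ B, tp G (x a) b = tp G (y a) b) : ∃ k ∈ st G B, ∀ a, k (x a) = y a := by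
  obtain ⟨g, hg, h⟩ := hX.bin (α ⊕ {b // b ∈ B}) (Sum.elim x (fun b => b.1))
    (Sum.elim y (fun b => b.1)) (by
      rintro (a | a) (b | b)
      · exact h1 a b
      · exact h2 a b.1 b.2
      · exact tp_swap (h2 b a.1 a.2)
      · rfl)
  exact ⟨g, mem_st.2 ⟨hg, fun b hb => h (Sum.inr ⟨b, hb⟩)⟩, fun a => h (Sum.inl a)⟩

theorem inR_self {c : Finset D} {u : D → D} (hu : Emb G u) (huc : CanU G ∅ c u) (x : D) :
    InR G c u (u x) := by
  intro a ha
  obtain ⟨g, hg, h1⟩ := huc.fin (α := Unit) (fun _ => x) (fun _ => u x) (hu.orb _)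
  have h2 := h1 ()
  exact tp_left.2 ⟨g, st_mono (Finset.singleton_subset_iff.2 ha) hg, h2⟩

theorem InR.map {c : Finset D} {u : D → D} (huc : CanU G ∅ c u) {g : Perm D} (hg : g ∈ st G c)
    {x : D} (hx : InR G c u x) : InR G c u (g x) := by
  intro a ha
  have h0 := (mem_st.1 hg).2 a ha
  have h1 := tp_map (st_le hg) a x
  rw [h0] at h1
  rw [h1, hx a ha]
  obtain ⟨k, hk, h2⟩ := huc.fin (α := Unit) (fun _ => x) (fun _ => g x)
    ⟨g, by rw [st_empty]; exact st_le hg, fun _ => rfl⟩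
  exact tp_left.2 ⟨k, st_mono (Finset.singleton_subset_iff.2 ha) hk, h2 ()⟩

/-- Points of a region in the same orbit have the same labels. -/
theorem InR.eq {c : Finset D} {u : D → D} (huc : CanU G ∅ c u) {g : Perm D} (hg : g ∈ G)
    {x : D} (hx : InR G c u x) (hgx : InR G c u (g x)) {a : D} (ha : a ∈ c) :
    tp G a (g x) = tp G a x := by
  rw [hx a ha, hgx a ha]
  obtain ⟨k, hk, h2⟩ := huc.fin (α := Unit) (fun _ => x) (fun _ => g x)
    ⟨g, by rwa [st_empty], fun _ => rfl⟩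
  exact (tp_left.2 ⟨k, st_mono (Finset.singleton_subset_iff.2 ha) hk, h2 ()⟩).symm

/-- Two tuples in the same region and in the same orbit are conjugate over the constants. -/
theorem BX.move_in (hX : BX G s) {c : Finset D} {u : D → D} (huc : CanU G ∅ c u) {α : Type}
    [Finite α] (x y : α → D) (hx : ∀ i, InR G c u (x i)) (hy : ∀ i, InR G c u (y i))
    (h : ∀ i j, tp G (x i) (x j) = tp G (y i) (y j)) : ∃ k ∈ st G c, ∀ i, k (x i) = y i := by
  obtain ⟨g, hg, h1⟩ := hX.bin α x y h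
  refine hX.move c x y h (fun i a ha => ?_)
  have h2 : InR G c u (g (x i)) := by
    rw [h1]
    exact hy i
  have h3 := (hx i).eq huc hg h2 ha
  rw [h1] at h3
  exact tp_swap h3.symm

theorem reach_id : Reach G (fun t => t) :=
  ⟨fun _ _ => ⟨1, G.one_mem, fun _ _ _ _ => rfl⟩, Rch.id⟩

theorem LegM.comp {ρ : PT G → PT G} {M : D → D → PT G}
    (hρ : LegM G (fun x b => ρ (tp G x b))) (hM : LegM G M) : LegM G (fun x b => ρ (M x b)) := by
  intro X B
  obtain ⟨g, hg, h1⟩ := hM X B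
  obtain ⟨g', hg', h2⟩ := hρ (X.image g) B
  refine ⟨g' * g, G.mul_mem hg' hg, fun x hx b hb => ?_⟩
  have h3 := h2 _ (Finset.mem_image_of_mem _ hx) b hb
  simp only at h3
  rw [Perm.mul_apply, h3, h1 x hx b hb]

theorem BX.reach_comp {ρ ρ' : PT G → PT G} (h : Reach G ρ) (h' : Reach G ρ') :
    Reach G (fun t => ρ (ρ' t)) := by
  obtain ⟨h1, h2⟩ := h
  obtain ⟨h3, h4⟩ := h'
  refine ⟨h1.comp h3, ?_⟩
  clear h3
  induction h4 with
  | id => exact h2
  | link _ c uP uQ hP hPc hQ hQc M hM hMP hMQ ih =>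
    refine Rch.link ih c uP uQ hP hPc hQ hQc (fun x b => ρ (M x b)) (h1.comp hM) ?_ ?_
    · intro x b hx
      rw [hMP x b hx]
    · intro x b hx hb
      rw [hMQ x b hx hb]

end Pool.Agent.MP_f99268_lc
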