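import Pool.Agent.Lib.MP_f99268_lc_W.Ctx
import Pool.Agent.Lib.MP_f99268_lc.Final

/-!
# Runs of glueing steps
-/

namespace Pool.Agent.MP_f99268_lc

open Equiv Classical

variable {D : Type} {G : Subgroup (Perm D)}

theorem Run.mono : ∀ {l : List (Reg G)} {Z Z' W W' : Finset D → Prop}, Run l Z Z' →
    (∀ Y, W Y → Z Y) → (∀ Y, Z' Y → W' Y) → Run l W W'
  | [], _, _, _, _, h, h1, h2 => fun Y hY => h2 Y (h Y (h1 Y hY))
  | _ :: _, _, _, _, _, ⟨Z₁, ha, hs, h⟩, h1, h2 =>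
    ⟨Z₁, ha, fun A τ hτ hW => hs A τ hτ (h1 _ hW), Run.mono h (fun _ h => h) h2⟩

theorem Run.append : ∀ {l l' : List (Reg G)} {Z Z' Z'' : Finset D → Prop}, Run l Z Z' →
    Run l' Z' Z'' → Run (l ++ l') Z Z''
  | [], _, _, _, _, h, h' => Run.mono h' h (fun _ h => h)
  | _ :: _, _, _, _, _, ⟨Z₁, ha, hs, h⟩, h' => ⟨Z₁, ha, hs, Run.append h h'⟩

/-- Unions of zones. -/
theorem Run.union {Θ : Sort*} : ∀ {l : List (Reg G)} {Z Z' : Θ → Finset D → Prop},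
    (∀ θ, Run l (Z θ) (Z' θ)) → Run l (fun Y => ∃ θ, Z θ Y) (fun Y => ∃ θ, Z' θ Y)
  | [], _, _, h => fun Y ⟨θ, hθ⟩ => ⟨θ, h θ Y hθ⟩
  | r :: l, Z, Z', h => by
    choose Z₁ ha hs hr using h
    refine ⟨fun Y => ∃ θ, Z₁ θ Y, fun Y Y' hY ⟨θ, hθ⟩ => ⟨θ, ha θ Y Y' hY hθ⟩, ?_,
      Run.union hr⟩
    rintro A τ hτ ⟨θ, hθ⟩
    obtain ⟨σ, hσ, h1, h2⟩ := hs θ A τ hτ hθ
    exact ⟨σ, hσ, h1, θ, h2⟩

/-- Moving a run by an element of `G`. -/
theorem Run.map {κ : Perm D} (hκ : κ ∈ G) : ∀ {l : List (Reg G)} {Z Z' : Finset D → Prop},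
    Run l Z Z' → Run l (fun Y => Z (Y.image κ)) (fun Y => Z' (Y.image κ))
  | [], _, _, h => fun Y hY => h _ hY
  | r :: l, Z, Z', ⟨Z₁, ha, hs, h⟩ => by
    refine ⟨fun Y => Z₁ (Y.image κ), fun Y Y' hY hZ => ha _ _ (Finset.image_subset_image hY) hZ,
      ?_, Run.map hκ h⟩
    intro A τ hτ hZ
    rw [Finset.image_image] at hZ
    obtain ⟨σ, hσ, h1, h2⟩ := hs A (κ * τ) (G.mul_mem hκ hτ) hZ
    refine ⟨κ⁻¹ * σ, G.mul_mem (G.inv_mem hκ) hσ, fun a ha haP => ?_, ?_⟩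
    · rw [Perm.mul_apply, h1 a ha haP, Perm.mul_apply]
      simp
    · show Z₁ (((A.filter (· ∈ r.Q)).image (κ⁻¹ * σ : Perm D)).image κ)
      rw [Finset.image_image]
      have e : (κ : D → D) ∘ (κ⁻¹ * σ : Perm D) = σ := by
        funext x
        simp
      rw [e]
      exact h2

/-- The trivial step. -/
def Reg.triv (G : Subgroup (Perm D)) : Reg G where
  c := ∅
  P := Set.univ
  Q := Set.univ
  hP := fun _ _ _ _ => Set.mem_univ _
  hQ := fun _ _ _ _ => Set.mem_univ _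
  uP := fun x => x
  uP_emb := fun _ => ⟨1, G.one_mem, fun _ _ => rfl⟩
  uP_can := fun _ _ _ h => h
  uP_mem := fun _ => Set.mem_univ _
  uQ := fun x => x
  uQ_emb := fun _ => ⟨1, G.one_mem, fun _ _ => rfl⟩
  uQ_can := fun _ _ _ h => h
  uQ_mem := fun _ => Set.mem_univ _

/-- Chains of relations as sequences. -/
theorem Run.seq : ∀ {l : List (Reg G)} {Z Z' : Finset D → Finset D → Prop},
    (∀ B, Run l (Z B) (Z' B)) → (∀ B, Anti (Z B)) → (∀ B, Anti (Z' B)) →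
    ∃ (N : ℕ) (r : ℕ → Reg G) (W : ℕ → Finset D → Finset D → Prop),
      (∀ B Y, Z B Y → W 0 B Y) ∧ (∀ B Y, W N B Y → Z' B Y) ∧
      (∀ j B, Anti (W j B)) ∧ ∀ j < N, ∀ B, StepR (r j) (W j B) (W (j + 1) B)
  | [], Z, Z', h, _, h2 => ⟨0, fun _ => Reg.triv G, fun _ => Z', h, fun _ _ h => h,
      fun _ => h2, fun j hj => absurd hj (Nat.not_lt_zero j)⟩
  | r :: l, Z, Z', h, h1, h2 => by
    choose Z₁ ha hs hr using h
    obtain ⟨N, r', W, h3, h4, h5, h6⟩ := Run.seq hr ha h2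
    refine ⟨N + 1, fun j => Nat.casesOn j r r', fun j => Nat.casesOn j Z W, fun B Y h => h,
      h4, ?_, ?_⟩
    · rintro (_ | j) B
      · exact h1 B
      · exact h5 j B
    · rintro (_ | j) hj B
      · intro A τ hτ hZ
        obtain ⟨σ, hσ, h7, h8⟩ := hs B A τ hτ hZ
        exact ⟨σ, hσ, h7, h3 B _ h8⟩
      · exact h6 j (by omega) B

/-- A run from `Y ⊆ B` to a canonical position gives a glueing chain. -/
theorem run_glue {l : List (Reg G)} {Z' : Finset D → Finset D → Prop}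
    (hr : ∀ B, Run l (fun Y => Y ⊆ B) (Z' B)) (ha : ∀ B, Anti (Z' B)) (t : Finset D → D → D)
    (ht : ∀ B, Emb G (t B)) (htc : ∀ B, CanU G ∅ B (t B))
    (hf : ∀ (B : Finset D) (m : ℕ) (x : Fin m → D), ∀ σ ∈ G,
      Z' B (Finset.univ.image fun i => σ (x i)) →
      Orb G B (fun i => t B (x i)) (fun i => σ (x i))) : Nonempty (Glue G) := by
  obtain ⟨N, r, W, h0, hN, hW, hs⟩ := Run.seq hr (fun B Y Y' hY h => hY.trans h) ha
  exact ⟨{
    N := N
    c := fun j => (r j).c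
    P := fun j => (r j).P
    Q := fun j => (r j).Q
    hP := fun j => (r j).hP
    hQ := fun j => (r j).hQ
    uP := fun j => (r j).uP
    uQ := fun j => (r j).uQ
    uP_emb := fun j => (r j).uP_emb
    uP_can := fun j => (r j).uP_can
    uP_mem := fun j => (r j).uP_mem
    uQ_emb := fun j => (r j).uQ_emb
    uQ_can := fun j => (r j).uQ_can
    uQ_mem := fun j => (r j).uQ_mem
    Z := W
    Z_anti := fun j B Y Y' hY h => hW j B Y Y' hY h
    Z_zero := fun B Y hY => h0 B Y hY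
    step := fun j hj A B τ hτ hZ => hs j hj B A τ hτ hZ
    t := t
    t_emb := ht
    t_can := htc
    final := fun B m x σ hσ hZ => hf B m x σ hσ (hN B _ hZ) }⟩

end Pool.Agent.MP_f99268_lc
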