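import Pool.Agent.Lib.MP_f99268_lc_W.OkL

/-!
# The first and the last state
-/

namespace Pool.Agent.MP_f99268_lc

open Equiv Classical

variable {D : Type} {G : Subgroup (Perm D)} {s : ℕ} {e : PT G → PT G} {J₀ J : D → D → PT G}

/-- (`A₀ = {x}`; for `A` take `h = 1` and `T = A`. For `g x ∈ A` the constant tuple `g x` with the
pattern of (`g x`, `g b`) is not Ok: `tp (g x) b' = J (g x) b' = J x b` and `= e (tp x b)`.) -/
theorem EX.state_zero (hE : EX G s e J₀ J) (h : ∃ x b, e (tp G x b) ≠ J x b) :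
    State G s e J 0 := by
  obtain ⟨x, b, hxb⟩ := h
  have hs : 0 < s := lt_of_lt_of_le (by omega) hE.four
  refine ⟨{x}, fun A => ⟨1, G.one_mem, fun i => i.elim0, fun i => i.elim0, A,
    fun i => i.elim0, fun g hg hA hU => ?_, fun F _ _ i => i.elim0⟩⟩
  have hgx : g x ∈ A := hA x (Finset.mem_singleton_self x)
  obtain ⟨b', h1, h2, h3⟩ := hU (fun _ => g x) (fun _ => by simp)
    (fun _ _ => tp G x x, fun _ _ => tp G b b, fun _ _ => e (tp G x b))
    ⟨fun _ => x, fun _ => b, fun _ _ => rfl, fun _ _ => rfl, fun _ _ => rfl⟩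
    (fun _ _ => tp_map hg _ _)
  have h4 := h1 ⟨0, hs⟩ ⟨0, hs⟩
  have h5 := h2 (g x) (Finset.mem_union_right _ hgx) ⟨0, hs⟩
  have h6 := h3 ⟨0, hs⟩ ⟨0, hs⟩
  simp only at h4 h6
  obtain ⟨k, hk, h7, _⟩ := tp_eq.1 h4.symm
  rw [h6, ← h7, hE.inv hg hk] at h5
  exact hxb h5

/-- (Take `A = A₀`, `g = 1`; `EX.ok_local` gives `F` with at most `s` elements that kills, and it
contains the `s + 1` elements `b i`.) -/
theorem EX.state_end (hE : EX G s e J₀ J) : ¬ State G s e J (s + 1) := by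
  rintro ⟨A₀, hA₀⟩
  obtain ⟨h, _, b, hb, T, _, h2, h3⟩ := hA₀ A₀
  have h4 := h2 1 G.one_mem (fun a ha => ha)
  have e1 : A₀.image (1 : Perm D) = A₀ := by
    ext a
    simp
  rw [e1] at h4
  apply h4
  intro x hx π hπ hxπ
  refine hE.ok_local fun F hF hcard => ?_
  by_contra hOk
  have h5 := h3 F hF (fun hU => hOk (hU x hx π hπ hxπ))
  have h6 : (Finset.univ.image b).card ≤ F.card := Finset.card_le_card (by
    intro a ha
    obtain ⟨i, _, rfl⟩ := Finset.mem_image.1 ha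
    exact h5 i)
  rw [Finset.card_image_of_injective _ hb, Finset.card_univ, Fintype.card_fin] at h6
  omega

end Pool.Agent.MP_f99268_lc
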