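import Pool.Agent.Lib.MP_f99268_lc_W.AlphaF

/-!
# The next state
-/

namespace Pool.Agent.MP_f99268_lc

open Equiv Classical

variable {D : Type} {G : Subgroup (Perm D)} {s : ℕ} {e : PT G → PT G} {J₀ J : D → D → PT G}

/-- The first time at which the increasing sets `S t` kill `Y` (at most `n + 1`). -/
noncomputable def fst (G : Subgroup (Perm D)) (s : ℕ) (J : D → D → PT G) (e : PT G → PT G)
    (S : ℕ → Finset D) (n : ℕ) (Y : Finset D) : ℕ :=
  Nat.find (p := fun t => t = n + 1 ∨ ¬ Unk G s J e (S t) Y) ⟨n + 1, Or.inl rfl⟩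

theorem fst_spec {S : ℕ → Finset D} {n : ℕ} {Y : Finset D} :
    fst G s J e S n Y = n + 1 ∨ ¬ Unk G s J e (S (fst G s J e S n Y)) Y :=
  Nat.find_spec (p := fun t => t = n + 1 ∨ ¬ Unk G s J e (S t) Y) ⟨n + 1, Or.inl rfl⟩

theorem fst_lt {S : ℕ → Finset D} {n : ℕ} {Y : Finset D} {t : ℕ}
    (h : t < fst G s J e S n Y) : Unk G s J e (S t) Y := by
  have h1 := Nat.find_min (p := fun t => t = n + 1 ∨ ¬ Unk G s J e (S t) Y) ⟨n + 1, Or.inl rfl⟩ h
  push Not at h1
  exact h1.2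

theorem fst_le {S : ℕ → Finset D} {n : ℕ} {Y : Finset D} {t : ℕ}
    (h : ¬ Unk G s J e (S t) Y) : fst G s J e S n Y ≤ t :=
  Nat.find_min' (p := fun t => t = n + 1 ∨ ¬ Unk G s J e (S t) Y) _ (Or.inr h)

theorem fst_le' {S : ℕ → Finset D} {n : ℕ} {Y : Finset D} : fst G s J e S n Y ≤ n + 1 :=
  Nat.find_min' (p := fun t => t = n + 1 ∨ ¬ Unk G s J e (S t) Y) _ (Or.inl rfl)

/-- Not killed at time `t` if the first time is larger, for increasing `S`. -/
theorem fst_not {S : ℕ → Finset D} (hS : Monotone S) {n : ℕ} {Y : Finset D} {t : ℕ}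
    (h : fst G s J e S n Y ≤ t) (ht : t ≤ n) : ¬ Unk G s J e (S t) Y := by
  intro h1
  rcases fst_spec (G := G) (s := s) (J := J) (e := e) (S := S) (n := n) (Y := Y) with h2 | h2
  · omega
  · exact h2 (h1.anti (hS h) subset_rfl)

/-- A finite set that contains a copy of every `s`-tuple. -/
theorem BX.exists_rich (hX : BX G s) (A₀ : Finset D) : ∃ A : Finset D, A₀ ⊆ A ∧
    ∀ x : Fin s → D, ∃ g ∈ G, ∀ i, ∃ a ∈ A, x i = g a := by
  obtain ⟨T, hT⟩ := hX.olig.fin ∅ s
  refine ⟨A₀ ∪ T.biUnion (fun t => Finset.univ.image t), Finset.subset_union_left, fun x => ?_⟩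
  obtain ⟨g, hg, h1⟩ := hT x
  refine ⟨g⁻¹, G.inv_mem (st_le hg), fun i => ⟨g (x i), ?_, by simp⟩⟩
  apply Finset.mem_union_right
  rw [Finset.mem_biUnion]
  exact ⟨_, h1, Finset.mem_image.2 ⟨i, Finset.mem_univ _, rfl⟩⟩

/-- A far copy. -/
theorem BX.exists_copy (J₀ : D → D → PT G) (hJ : LegM G J₀) (A : Finset D) :
    ∃ g ∈ G, ∀ x ∈ A, ∀ y ∈ A, tp G x (g y) = J₀ x y := by
  obtain ⟨g, hg, h⟩ := hJ A A
  refine ⟨g⁻¹, G.inv_mem hg, fun x hx y hy => ?_⟩
  rw [← h x hx y hy, ← tp_map hg]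
  simp

/-- Two pairs of copies of `A` in far position are conjugate. -/
theorem EX.far_pair (hE : EX G s e J₀ J) {A : Finset D} {gJ : Perm D} (hgJ : gJ ∈ G)
    (hJA : ∀ x ∈ A, ∀ y ∈ A, tp G x (gJ y) = J₀ x y) {g g' : Perm D} (hg : g ∈ G)
    (hg' : g' ∈ G) (h : ∀ x ∈ A, ∀ y ∈ A, tp G (g x) (g' y) = J₀ x y) :
    ∃ k ∈ G, ∀ x ∈ A, k x = g x ∧ k (gJ x) = g' x := by
  obtain ⟨k, hk, h1⟩ := hE.bin ({a // a ∈ A} ⊕ {a // a ∈ A})
    (Sum.elim (fun a => a.1) (fun a => gJ a.1)) (Sum.elim (fun a => g a.1) (fun a => g' a.1)) (by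
      rintro (a | a) (b | b)
      · exact (tp_map hg a.1 b.1).symm
      · exact (hJA _ a.2 _ b.2).trans (h _ a.2 _ b.2).symm
      · exact tp_swap ((hJA _ b.2 _ a.2).trans (h _ b.2 _ a.2).symm)
      · exact (tp_map hgJ a.1 b.1).trans (tp_map hg' a.1 b.1).symm)
  exact ⟨k, hk, fun x hx => ⟨h1 (Sum.inl ⟨x, hx⟩), h1 (Sum.inr ⟨x, hx⟩)⟩⟩

/-- If every `s`-tuple of `Y` is in a set that is not killed, then `Y` is not killed. -/
theorem unk_of_cover {S Y : Finset D} (h : ∀ x : Fin s → D, (∀ i, x i ∈ Y) →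
    ∃ Y', (∀ i, x i ∈ Y') ∧ Unk G s J e S Y') : Unk G s J e S Y := by
  intro x hx π hπ h1
  obtain ⟨Y', h2, h3⟩ := h x hx
  exact h3 x h2 π hπ h1

/-- A tuple in a region lies in a copy of a rich set inside the region. -/
theorem BX.cover_in (hX : BX G s) {A c : Finset D} {u : D → D} (hu : Emb G u)
    (huc : CanU G ∅ c u) (hA : ∀ x : Fin s → D, ∃ g ∈ G, ∀ i, ∃ a ∈ A, x i = g a)
    (x : Fin s → D) (hx : ∀ i, InR G c u (x i)) :
    ∃ g ∈ G, (∀ i, ∃ a ∈ A, x i = g a) ∧ ∀ a ∈ A, InR G c u (g a) := by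
  obtain ⟨g₀, hg₀, h1⟩ := hA x
  obtain ⟨w, hw, h2⟩ := hu (A.image g₀)
  have h3 : ∀ i, u (x i) = w (x i) := by
    intro i
    obtain ⟨a, ha, h⟩ := h1 i
    rw [h]
    exact h2 _ (Finset.mem_image_of_mem _ ha)
  obtain ⟨k, hk, h4⟩ := hX.move_in huc (fun i => u (x i)) x (fun i => inR_self hu huc _) hx (by
    intro i j
    rw [h3, h3, tp_map hw])
  refine ⟨k * w * g₀, G.mul_mem (G.mul_mem (st_le hk) hw) hg₀, fun i => ?_, fun a ha => ?_⟩
  · obtain ⟨a, ha, h⟩ := h1 i
    refine ⟨a, ha, ?_⟩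
    rw [Perm.mul_apply, Perm.mul_apply, ← h, ← h3]
    exact (h4 i).symm
  · rw [Perm.mul_apply, Perm.mul_apply, ← h2 _ (Finset.mem_image_of_mem _ ha)]
    exact InR.map huc hk (inR_self hu huc _)

/-- An increasing enumeration of a finite set, starting from another one. -/
theorem exists_enum (S₀ T : Finset D) : ∃ (n : ℕ) (S : ℕ → Finset D), Monotone S ∧ S 0 = S₀ ∧
    S n = S₀ ∪ T ∧ ∀ t, S (t + 1) = S t ∨ ∃ a, a ∉ S t ∧ S (t + 1) = insert a (S t) := by
  refine ⟨T.toList.length, fun t => S₀ ∪ (T.toList.take t).toFinset, ?_, ?_, ?_, ?_⟩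
  · apply monotone_nat_of_le_succ
    intro t
    apply Finset.union_subset_union_right
    intro x hx
    rw [List.mem_toFinset] at hx ⊢
    exact (List.take_subset_take_left _ (Nat.le_succ t)) hx
  · simp
  · simp only
    rw [List.take_length, Finset.toList_toFinset]
  · intro t
    by_cases ht : t < T.toList.length
    · have e1 : (T.toList.take (t + 1)).toFinset =
          insert (T.toList[t]) (T.toList.take t).toFinset := by
        ext x
        rw [Finset.mem_insert, List.mem_toFinset, List.mem_toFinset, List.take_add_one,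
          List.getElem?_eq_getElem ht, List.mem_append, Option.toList_some, List.mem_singleton]
        exact or_comm
      by_cases h : T.toList[t] ∈ S₀ ∪ (T.toList.take t).toFinset
      · left
        simp only
        rw [e1, Finset.union_insert, Finset.insert_eq_of_mem h]
      · right
        exact ⟨_, h, by simp only; rw [e1, Finset.union_insert]⟩
    · left
      simp only
      rw [List.take_of_length_le (by omega), List.take_of_length_le (by omega)]

/-- `ram` for tuples indexed by a finite type. -/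
theorem ram' (hR : FR G Bool) (X : Finset D) (κ : Type) [Finite κ] (α : Type) [Finite α] :
    ∃ C : Finset D, ∀ χ : (α → D) → κ, ∃ k ∈ G, (∀ x ∈ X, k x ∈ C) ∧
      ∀ x y : α → D, (∀ i, x i ∈ X) → (∀ i, y i ∈ X) → (∃ g ∈ G, ∀ i, g (x i) = y i) →
        χ (fun i => k (x i)) = χ (fun i => k (y i)) := by
  obtain ⟨m, ⟨f⟩⟩ := Finite.exists_equiv_fin α
  obtain ⟨C, hC⟩ := ram hR ∅ X κ m
  refine ⟨C, fun χ => ?_⟩
  obtain ⟨k, hk, h1, h2⟩ := hC (fun z => χ (fun i => z (f i)))
  refine ⟨k, st_le hk, h1, fun x y hx hy hg => ?_⟩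
  obtain ⟨g, hg, h3⟩ := hg
  have := h2 (fun i => x (f.symm i)) (fun i => y (f.symm i)) (fun i => hx _) (fun i => hy _)
    ⟨g, by rwa [st_empty], fun i => h3 _⟩
  simpa using this

theorem EX.state_succ [Countable D] (hE : EX G s e J₀ J) {k : ℕ} (h : State G s e J k) :
    State G s e J (k + 1) := by
  have := finite_PT hE.olig
  obtain ⟨A₀, hst⟩ := h
  obtain ⟨A, hA₀, hrich⟩ := hE.toBX.exists_rich A₀
  obtain ⟨gJ, hgJ, hJA⟩ := BX.exists_copy J₀ hE.leg₀ A
  obtain ⟨Bα, hBα⟩ := hE.alpha_fin k A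
  obtain ⟨uP, hP, hPc, hPJ⟩ := hE.toBX.exists_after hE.inv₀ hE.leg₀ A
  obtain ⟨uQ, hQ, hQc, hQJ⟩ := hE.toBX.exists_before hE.inv₀ hE.leg₀ A
  obtain ⟨B₁, hB₁⟩ := hE.dich A uP uQ hP hPc hQ hQc A
  obtain ⟨B₂, hB₂⟩ := hE.dich A uQ uP hQ hQc hP hPc A
  refine ⟨A, fun At => ?_⟩
  obtain ⟨A₁, hA₁⟩ := ram' hE.ramsey At (PT G) Unit
  -- covers
  have hcov : ∀ x : Fin s → D, ∃ g ∈ G, (∀ i, ∃ a ∈ A, x i = g a) := hrich
  choose gA hgA hgA1 using hcov
  have hcovP : ∀ x : Fin s → D, ∃ g ∈ G, (∀ i, InR G A uP (x i)) →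
      (∀ i, ∃ a ∈ A, x i = g a) ∧ ∀ a ∈ A, InR G A uP (g a) := by
    intro x
    by_cases hx : ∀ i, InR G A uP (x i)
    · obtain ⟨g, hg, h1, h2⟩ := hE.toBX.cover_in hP hPc hrich x hx
      exact ⟨g, hg, fun _ => ⟨h1, h2⟩⟩
    · exact ⟨1, G.one_mem, fun h => absurd h hx⟩
  have hcovQ : ∀ x : Fin s → D, ∃ g ∈ G, (∀ i, InR G A uQ (x i)) →
      (∀ i, ∃ a ∈ A, x i = g a) ∧ ∀ a ∈ A, InR G A uQ (g a) := by
    intro x
    by_cases hx : ∀ i, InR G A uQ (x i)
    · obtain ⟨g, hg, h1, h2⟩ := hE.toBX.cover_in hQ hQc hrich x hx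
      exact ⟨g, hg, fun _ => ⟨h1, h2⟩⟩
    · exact ⟨1, G.one_mem, fun h => absurd h hx⟩
  choose gP hgP hgP1 using hcovP
  choose gQ hgQ hgQ1 using hcovQ
  -- the big set
  set A₂ : Finset D := A₁ ∪ A ∪
    (Fintype.piFinset fun _ : Fin s => A₁).biUnion (fun x => A.image (gA x)) with hA₂
  obtain ⟨g₂, hg₂, hJ₂⟩ := BX.exists_copy J₀ hE.leg₀ A₂
  set BB : Finset D := A₂ ∪ A₂.image g₂ ∪ Bα ∪ B₁ ∪ B₂ ∪
    (Fintype.piFinset fun _ : Fin s => B₁).biUnion (fun x => A.image (gP x)) ∪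
    (Fintype.piFinset fun _ : Fin s => B₂).biUnion (fun x => A.image (gQ x)) with hBB
  have hAA₂ : A ⊆ A₂ := by
    intro x hx
    simp only [hA₂, Finset.mem_union]
    exact Or.inl (Or.inr hx)
  have hA₁A₂ : A₁ ⊆ A₂ := by
    intro x hx
    simp only [hA₂, Finset.mem_union]
    exact Or.inl (Or.inl hx)
  have hBB2 : A₂ ⊆ BB := by
    intro x hx
    simp only [hBB, Finset.mem_union]
    tauto
  have hBBg : A₂.image g₂ ⊆ BB := by
    intro x hx
    simp only [hBB, Finset.mem_union]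
    tauto
  have hBBα : Bα ⊆ BB := by
    intro x hx
    simp only [hBB, Finset.mem_union]
    tauto
  have hBB₁ : B₁ ⊆ BB := by
    intro x hx
    simp only [hBB, Finset.mem_union]
    tauto
  have hBB₂ : B₂ ⊆ BB := by
    intro x hx
    simp only [hBB, Finset.mem_union]
    tauto
  have hBBP : ∀ x : Fin s → D, (∀ i, x i ∈ B₁) → ∀ a ∈ A, gP x a ∈ BB := by
    intro x hx a ha
    simp only [hBB, Finset.mem_union, Finset.mem_biUnion]
    exact Or.inl (Or.inr ⟨x, Fintype.mem_piFinset.2 hx, Finset.mem_image_of_mem _ ha⟩)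
  have hBBQ : ∀ x : Fin s → D, (∀ i, x i ∈ B₂) → ∀ a ∈ A, gQ x a ∈ BB := by
    intro x hx a ha
    simp only [hBB, Finset.mem_union, Finset.mem_biUnion]
    exact Or.inr ⟨x, Fintype.mem_piFinset.2 hx, Finset.mem_image_of_mem _ ha⟩
  have hA₂c : ∀ x : Fin s → D, (∀ i, x i ∈ A₁) → ∀ a ∈ A, gA x a ∈ A₂ := by
    intro x hx a ha
    simp only [hA₂, Finset.mem_union, Finset.mem_biUnion]
    exact Or.inr ⟨x, Fintype.mem_piFinset.2 hx, Finset.mem_image_of_mem _ ha⟩
  -- the Ramsey set and the state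
  obtain ⟨C, hC⟩ := ram' hE.ramsey BB (Bool × Bool) ({a // a ∈ A} ⊕ {a // a ∈ A})
  obtain ⟨h, hh, b, hb, T, hs1, hs2, hs3⟩ := hst C
  obtain ⟨n, S, hSm, hS0, hSn, hSs⟩ := exists_enum (Finset.univ.image b) T
  let tm : Finset D → ℕ := fst G s J e S n
  obtain ⟨k₀, hk₀, hkC, hχ⟩ := hC (fun z =>
    (decide (tm (Finset.univ.image fun a : {a // a ∈ A} => h (z (Sum.inl a))) <
        tm (Finset.univ.image fun a : {a // a ∈ A} => h (z (Sum.inr a)))),
      decide (tm (Finset.univ.image fun a : {a // a ∈ A} => h (z (Sum.inr a))) <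
        tm (Finset.univ.image fun a : {a // a ∈ A} => h (z (Sum.inl a))))))
  let cp : (D → D) → Finset D := fun g => A.image fun a => h (k₀ (g a))
  have hcp : ∀ g : D → D, (Finset.univ.image fun a : {a // a ∈ A} => h (k₀ (g a.1))) = cp g := by
    intro g
    ext y
    simp only [cp, Finset.mem_image, Finset.mem_univ, true_and, Subtype.exists, exists_prop]
  have hcp1 : (Finset.univ.image fun a : {a // a ∈ A} => h (k₀ a.1)) = cp fun x => x :=
    hcp fun x => x
  -- comparison of the times of far pairs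
  have hfar : ∀ g ∈ G, ∀ g' ∈ G, (∀ x ∈ A, ∀ y ∈ A, tp G (g x) (g' y) = J₀ x y) →
      (∀ x ∈ A, g x ∈ BB) → (∀ x ∈ A, g' x ∈ BB) →
      ((tm (cp g) < tm (cp g') ↔ tm (cp fun x => x) < tm (cp g₂)) ∧
        (tm (cp g') < tm (cp g) ↔ tm (cp g₂) < tm (cp fun x => x))) := by
    have key : ∀ g ∈ G, ∀ g' ∈ G, (∀ x ∈ A, ∀ y ∈ A, tp G (g x) (g' y) = J₀ x y) →
        ∃ k ∈ G, ∀ i, k (Sum.elim (fun a : {a // a ∈ A} => a.1)
          (fun a : {a // a ∈ A} => gJ a.1) i) =
          Sum.elim (fun a : {a // a ∈ A} => g a.1) (fun a : {a // a ∈ A} => g' a.1) i := by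
      intro g hg g' hg' hgg
      obtain ⟨k, hk, h1⟩ := hE.far_pair hgJ hJA hg hg' hgg
      refine ⟨k, hk, ?_⟩
      rintro (a | a)
      · exact (h1 a.1 a.2).1
      · exact (h1 a.1 a.2).2
    intro g hg g' hg' hgg hgB hg'B
    obtain ⟨κ, hκ, h1⟩ := key g hg g' hg' hgg
    obtain ⟨κ', hκ', h2⟩ := key 1 G.one_mem g₂ hg₂
      (fun x hx y hy => hJ₂ x (hAA₂ hx) y (hAA₂ hy))
    have h3 := hχ (Sum.elim (fun a : {a // a ∈ A} => g a.1) (fun a : {a // a ∈ A} => g' a.1))
      (Sum.elim (fun a : {a // a ∈ A} => a.1) (fun a : {a // a ∈ A} => g₂ a.1))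
      (by
        rintro (a | a)
        · exact hgB a.1 a.2
        · exact hg'B a.1 a.2)
      (by
        rintro (a | a)
        · exact hBB2 (hAA₂ a.2)
        · exact hBBg (Finset.mem_image_of_mem _ (hAA₂ a.2)))
      ⟨κ' * κ⁻¹, G.mul_mem hκ' (G.inv_mem hκ), fun i => by
        have h9 := h2 i
        simp only [Perm.one_apply] at h9
        rw [← h1 i, ← h9]
        simp⟩
    simp only [Sum.elim_inl, Sum.elim_inr, hcp, hcp1, Prod.mk.injEq, decide_eq_decide] at h3
    exact h3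
  have htle : ∀ g ∈ G, (∀ x ∈ A, g x ∈ BB) → tm (cp g) ≤ n := by
    intro g hg hgB
    have h1 := hs2 (k₀ * g) (G.mul_mem hk₀ hg) (fun a ha => hkC _ (hgB a (hA₀ ha)))
    refine fst_le (fun h2 => h1 ?_)
    rw [← hSn]
    refine h2.anti subset_rfl ?_
    intro y hy
    obtain ⟨y', hy', rfl⟩ := Finset.mem_image.1 hy
    obtain ⟨a, ha, rfl⟩ := Finset.mem_image.1 hy'
    exact Finset.mem_image.2 ⟨a, hA₀ ha, rfl⟩
  have hone : tm (cp fun x => x) ≤ n := htle 1 G.one_mem (fun x hx => hBB2 (hAA₂ hx))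
  rcases lt_trichotomy (tm (cp fun x => x)) (tm (cp g₂)) with hlt | heq | hgt
  · -- the region after is not killed, the region before is killed
    exfalso
    have h1 : Unk G s J e (S (tm (cp fun x => x)))
        ((B₁.filter (InR G A uP)).image (h * k₀ : Perm D)) := by
      apply unk_of_cover
      intro x hx
      choose y hy hyx using fun i => Finset.mem_image.1 (hx i)
      have hy1 : ∀ i, y i ∈ B₁ := fun i => (Finset.mem_filter.1 (hy i)).1
      have hy2 : ∀ i, InR G A uP (y i) := fun i => (Finset.mem_filter.1 (hy i)).2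
      obtain ⟨h2, h3⟩ := hgP1 y hy2
      refine ⟨cp (gP y), fun i => ?_, ?_⟩
      · obtain ⟨a, ha, h4⟩ := h2 i
        rw [← hyx i, h4]
        exact Finset.mem_image_of_mem (fun a => h (k₀ (gP y a))) ha
      · apply fst_lt (n := n)
        refine (hfar 1 G.one_mem (gP y) (hgP y) ?_ (fun x hx => hBB2 (hAA₂ hx))
          (hBBP y hy1)).1.2 hlt
        intro a ha a' ha'
        rw [Perm.one_apply, h3 a' ha' a ha, hPJ a ha]
        have := hE.inv₀ 1 G.one_mem (gP y) (hgP y) a a'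
        simpa using this
    obtain ⟨g, hg, h2, h3⟩ := hB₁ (h * k₀) (G.mul_mem hh hk₀) _ h1
    obtain ⟨w, hw, h4⟩ := hQ A
    have h5 : ∀ x ∈ A, (g * w) x = g (uQ x) := fun x hx => by
      rw [Perm.mul_apply, ← h4 x hx]
    have h6 : tm (cp (g * w : Perm D)) < tm (cp fun x => x) := by
      refine (hfar (g * w) (G.mul_mem (st_le hg) hw) 1 G.one_mem ?_
        (fun x hx => ?_) (fun x hx => hBB2 (hAA₂ hx))).1.2 hlt
      · intro x hx y hy
        rw [h5 x hx, Perm.one_apply, ← hQJ y hy x]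
        have := tp_map (st_le hg) (uQ x) y
        rwa [(mem_st.1 hg).2 y hy] at this
      · rw [h5 x hx]
        exact hBB₁ (h2 x hx)
    refine fst_not hSm (le_of_lt h6) hone (h3.anti subset_rfl ?_)
    intro y hy
    obtain ⟨a, ha, rfl⟩ := Finset.mem_image.1 hy
    refine Finset.mem_image.2 ⟨a, ha, ?_⟩
    rw [h5 a ha]
    rfl
  · -- all copies in `A₂` have the same time
    obtain ⟨t₀, ht₀⟩ : ∃ t₀, t₀ = tm (cp fun x => x) := ⟨_, rfl⟩
    have hall : ∀ g ∈ G, (∀ x ∈ A, g x ∈ A₂) → tm (cp g) = t₀ := by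
      intro g hg hgA2
      have h1 := hfar g hg g₂ hg₂ (fun x hx y hy => by
          rw [hJ₂ (g x) (hgA2 x hx) y (hAA₂ hy)]
          have := hE.inv₀ g hg 1 G.one_mem x y
          simpa using this)
        (fun x hx => hBB2 (hgA2 x hx)) (fun x hx => hBBg (Finset.mem_image_of_mem _ (hAA₂ hx)))
      have h2 := mt h1.1.1 (not_lt.2 heq.symm.le)
      have h3 := mt h1.2.1 (not_lt.2 heq.le)
      omega
    have hpos : 0 < t₀ := by
      rw [Nat.pos_iff_ne_zero]
      intro h0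
      have h1 := hBα (h * k₀) (G.mul_mem hh hk₀) b (fun i x hx g hg hgx => by
        have := hs1 i (k₀ x) (hkC _ (hBBα hx)) (k₀ * g * k₀⁻¹)
          (G.mul_mem (G.mul_mem hk₀ hg) (G.inv_mem hk₀)) (by
            have := hkC _ (hBBα hgx)
            simpa using this)
        simpa using this)
      rw [← hS0] at h1
      refine fst_not (n := n) hSm (t := 0) ?_ (Nat.zero_le _) h1
      exact le_of_eq (ht₀.symm.trans h0)
    obtain ⟨t', rfl⟩ : ∃ t', t₀ = t' + 1 := ⟨t₀ - 1, by omega⟩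
    have hkill : ¬ Unk G s J e (S (t' + 1)) (cp fun x => x) :=
      fst_not hSm (le_of_eq ht₀.symm) (ht₀ ▸ hone)
    have halive : Unk G s J e (S t') (cp fun x => x) := fst_lt (n := n) (by
      show t' < tm (cp fun x => x)
      omega)
    rcases hSs t' with h1 | ⟨a, ha, hSa⟩
    · rw [h1] at hkill
      exact absurd halive hkill
    obtain ⟨g₁, hg₁, hg₁A, hg₁χ⟩ := hA₁ (fun z => tp G a (h (k₀ (z ()))))
    have hbS : ∀ i, b i ∈ S t' := fun i => by
      apply hSm (Nat.zero_le t')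
      rw [hS0]
      exact Finset.mem_image_of_mem _ (Finset.mem_univ i)
    have hab : ∀ i, b i ≠ a := fun i hi => ha (hi ▸ hbS i)
    have hun : Finset.univ.image (Fin.snoc b a : Fin (k + 1) → D) ∪ S t' = S (t' + 1) := by
      rw [hSa]
      ext x
      simp only [Finset.mem_union, Finset.mem_image, Finset.mem_univ, true_and,
        Finset.mem_insert]
      constructor
      · rintro (⟨i, rfl⟩ | hx)
        · refine Fin.lastCases ?_ (fun i => ?_) i
          · left
            simp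
          · right
            simpa using hbS i
        · exact Or.inr hx
      · rintro (rfl | hx)
        · exact Or.inl ⟨Fin.last k, by simp⟩
        · exact Or.inr hx
    refine ⟨h * k₀ * g₁, G.mul_mem (G.mul_mem hh hk₀) hg₁, Fin.snoc b a, ?_, S t', ?_, ?_, ?_⟩
    · intro i j
      refine Fin.lastCases ?_ (fun i => ?_) i
      · refine Fin.lastCases (fun _ => rfl) (fun j => ?_) j
        intro hij
        rw [Fin.snoc_last, Fin.snoc_castSucc] at hij
        exact absurd hij.symm (hab j)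
      · refine Fin.lastCases (fun hij => ?_) (fun j => ?_) j
        · rw [Fin.snoc_last, Fin.snoc_castSucc] at hij
          exact absurd hij (hab i)
        · intro hij
          rw [Fin.snoc_castSucc, Fin.snoc_castSucc] at hij
          rw [hb hij]
    · intro i x hx g hg hgx
      refine Fin.lastCases ?_ (fun i => ?_) i
      · rw [Fin.snoc_last]
        have := hg₁χ (fun _ => g x) (fun _ => x) (fun _ => hgx) (fun _ => hx)
          ⟨g⁻¹, G.inv_mem hg, fun _ => by simp⟩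
        simpa using this
      · rw [Fin.snoc_castSucc]
        have := hs1 i (k₀ (g₁ x)) (hkC _ (hBB2 (hA₁A₂ (hg₁A x hx))))
          (k₀ * g₁ * g * g₁⁻¹ * k₀⁻¹) (G.mul_mem (G.mul_mem (G.mul_mem (G.mul_mem hk₀ hg₁) hg)
            (G.inv_mem hg₁)) (G.inv_mem hk₀)) (by
            have := hkC _ (hBB2 (hA₁A₂ (hg₁A _ hgx)))
            simpa using this)
        simpa using this
    · intro g hg hgA
      rw [hun]
      have h1 : tm (cp (g₁ * g : Perm D)) = t' + 1 :=
        hall (g₁ * g) (G.mul_mem hg₁ hg) (fun x hx => hA₁A₂ (hg₁A _ (hgA x hx)))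
      intro h2
      refine fst_not (n := n) hSm (le_of_eq h1) (by omega) (h2.anti subset_rfl ?_)
      intro y hy
      obtain ⟨x, hx, rfl⟩ := Finset.mem_image.1 hy
      exact Finset.mem_image.2 ⟨g x, Finset.mem_image_of_mem _ hx, rfl⟩
    · intro F hF hkF i
      rw [hun] at hF
      refine Fin.lastCases ?_ (fun i => ?_) i
      · rw [Fin.snoc_last]
        by_contra haF
        apply hkF
        have hFS : F ⊆ S t' := by
          intro x hx
          have := hF hx
          rw [hSa, Finset.mem_insert] at this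
          rcases this with rfl | h1
          · exact absurd hx haF
          · exact h1
        refine Unk.anti ?_ hFS subset_rfl
        apply unk_of_cover
        intro x hx
        choose y hy hyx using fun i => Finset.mem_image.1 (hx i)
        have hy1 : ∀ i, g₁ (y i) ∈ A₁ := fun i => hg₁A _ (hy i)
        refine ⟨cp (gA fun i => g₁ (y i)), fun i => ?_, ?_⟩
        · obtain ⟨a', ha', h4⟩ := hgA1 (fun i => g₁ (y i)) i
          rw [← hyx i]
          refine Finset.mem_image.2 ⟨a', ha', ?_⟩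
          rw [← h4]
          rfl
        · apply fst_lt (n := n)
          have h1 := hall (gA fun i => g₁ (y i)) (hgA _) (hA₂c _ hy1)
          show t' < tm _
          omega
      · rw [Fin.snoc_castSucc]
        refine hs3 F (hF.trans ?_) (fun h1 => hkF (h1.anti subset_rfl ?_)) i
        · rw [← hSn]
          exact hSm (by omega)
        · intro y hy
          obtain ⟨x, hx, rfl⟩ := Finset.mem_image.1 hy
          exact Finset.mem_image.2 ⟨k₀ (g₁ x), hkC _ (hBB2 (hA₁A₂ (hg₁A x hx))), rfl⟩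
  · -- the region before is not killed, the region after is killed
    exfalso
    have h1 : Unk G s J e (S (tm (cp fun x => x)))
        ((B₂.filter (InR G A uQ)).image (h * k₀ : Perm D)) := by
      apply unk_of_cover
      intro x hx
      choose y hy hyx using fun i => Finset.mem_image.1 (hx i)
      have hy1 : ∀ i, y i ∈ B₂ := fun i => (Finset.mem_filter.1 (hy i)).1
      have hy2 : ∀ i, InR G A uQ (y i) := fun i => (Finset.mem_filter.1 (hy i)).2
      obtain ⟨h2, h3⟩ := hgQ1 y hy2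
      refine ⟨cp (gQ y), fun i => ?_, ?_⟩
      · obtain ⟨a, ha, h4⟩ := h2 i
        rw [← hyx i, h4]
        exact Finset.mem_image_of_mem (fun a => h (k₀ (gQ y a))) ha
      · apply fst_lt (n := n)
        refine (hfar (gQ y) (hgQ y) 1 G.one_mem ?_ (hBBQ y hy1)
          (fun x hx => hBB2 (hAA₂ hx))).2.2 hgt
        intro a ha a' ha'
        rw [Perm.one_apply, tp_swap (h3 a ha a' ha'), hQJ a' ha']
        have := hE.inv₀ (gQ y) (hgQ y) 1 G.one_mem a a'
        simpa using this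
    obtain ⟨g, hg, h2, h3⟩ := hB₂ (h * k₀) (G.mul_mem hh hk₀) _ h1
    obtain ⟨w, hw, h4⟩ := hP A
    have h5 : ∀ x ∈ A, (g * w) x = g (uP x) := fun x hx => by
      rw [Perm.mul_apply, ← h4 x hx]
    have h6 : tm (cp (g * w : Perm D)) < tm (cp fun x => x) := by
      refine (hfar 1 G.one_mem (g * w) (G.mul_mem (st_le hg) hw) ?_
        (fun x hx => hBB2 (hAA₂ hx)) (fun x hx => ?_)).2.2 hgt
      · intro x hx y hy
        rw [h5 y hy, Perm.one_apply, ← hPJ x hx y]
        have := tp_map (st_le hg) x (uP y)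
        rwa [(mem_st.1 hg).2 x hx] at this
      · rw [h5 x hx]
        exact hBB₂ (h2 x hx)
    refine fst_not hSm (le_of_lt h6) hone (h3.anti subset_rfl ?_)
    intro y hy
    obtain ⟨a, ha, rfl⟩ := Finset.mem_image.1 hy
    refine Finset.mem_image.2 ⟨a, ha, ?_⟩
    rw [h5 a ha]
    rfl

end Pool.Agent.MP_f99268_lc
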