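import Pool.Agent.Lib.MP_f99268_lc_W.StgA
import Pool.Agent.Lib.MP_f99268_lc_W.StgB

/-!
# The stages
-/

namespace Pool.Agent.MP_f99268_lc

open Equiv Classical

variable {D : Type} {G : Subgroup (Perm D)} {s : ℕ} {e : PT G → PT G} {J₀ J : D → D → PT G}

/-- The minimal position is far. -/
theorem EX.far [Countable D] (hE : EX G s e J₀ J) (x b : D) : e (tp G x b) = J x b := by
  by_contra hne
  have h : ∀ k, State G s e J k := by
    intro k
    induction k with
    | zero => exact hE.state_zero ⟨x, b, hne⟩
    | succ k ih => exact hE.state_succ ih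
  exact hE.state_end (h _)

end Pool.Agent.MP_f99268_lc
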